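import Pool.Agent.Helper14.LE.APP3

open MeasureTheory Set Filter Topology InnerProductSpace Laplacian

noncomputable section

namespace LEP.APPm

variable {D : Set ℂ}

theorem continuousOn_psi : ContinuousOn psi Qd := by
  unfold psi
  refine ContinuousOn.div (by fun_prop) (by fun_prop) ?_
  intro y hy
  exact (norm_pos_Qd hy).ne'

theorem psi_le_norm {y : ℂ} (hy : y ∈ Qd) : psi y ≤ ‖y‖ := by
  have hn := norm_pos_Qd hy
  have h1 : 0 < y.re := hy.1
  have h2 : 0 < y.im := hy.2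
  unfold psi
  rw [div_le_iff₀ hn]
  have h3 : y.re ≤ ‖y‖ := Complex.re_le_norm y
  have h4 : y.im ≤ ‖y‖ := Complex.im_le_norm y
  exact mul_le_mul h3 h4 h2.le (norm_nonneg _)

theorem im_sq_pos {y : ℂ} (hy : y ∈ Qd) : 0 < (y ^ 2).im := by
  have := psi_mul_norm y hy
  have h1 := psi_pos hy
  have h2 := norm_pos_Qd hy
  have h3 : 0 < psi y * ‖y‖ := by positivity
  linarith

theorem int4 (h : DF D) (Bd : ℝ) (hBd : ∀ y ∈ D, ‖y‖ ≤ Bd) (f : ℂ → ℝ) (C : ℝ)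
    (hf : AEStronglyMeasurable f (volume.restrict D)) (hC : ∀ y ∈ D, |f y| ≤ C * (y ^ 2).im) :
    IntegrableOn (fun y => f y ^ 4) D := by
  have hfin := h.fin
  have hDm : MeasurableSet D := h.op.measurableSet
  refine Integrable.mono' (integrable_const ((C * Bd ^ 2) ^ 4)) (hf.pow 4) ?_
  filter_upwards [ae_restrict_mem hDm] with y hy
  have hQ := h.sub hy
  have h1 := im_sq_pos hQ
  have h2 := hC y hy
  have h3 : (y ^ 2).im ≤ Bd ^ 2 := by
    have := Complex.im_le_norm (y ^ 2)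
    rw [norm_pow] at this
    have h5 := hBd y hy
    have h6 := norm_nonneg y
    nlinarith
  have hC0 : 0 ≤ C := by
    by_contra hneg
    push Not at hneg
    have : C * (y ^ 2).im < 0 := mul_neg_of_neg_of_pos hneg h1
    linarith [abs_nonneg (f y)]
  have h4 : |f y| ≤ C * Bd ^ 2 := h2.trans (mul_le_mul_of_nonneg_left h3 hC0)
  rw [Real.norm_eq_abs, abs_pow]
  exact pow_le_pow_left₀ (abs_nonneg _) h4 4

theorem T4' (h4 : ST_T4) {R : ℝ → ℝ} (hR : Prof R) (f : ℂ → ℝ)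
    (hf : AEStronglyMeasurable f (volume.restrict (Ddom R)))
    (hC : ∃ C : ℝ, ∀ y ∈ Ddom R, |f y| ≤ C * (y ^ 2).im) :
    ∃ C : ℝ, ∀ x ∈ Ddom R, |TD (Ddom R) f x| ≤ C * (x ^ 2).im := by
  obtain ⟨B, hB⟩ := hR.bdd
  obtain ⟨C4, hC4, h⟩ := h4 B
  obtain ⟨C, hC⟩ := hC
  set K := max C 1 with hK
  have hK1 : 1 ≤ K := le_max_right _ _
  have hK0 : 0 < K := by linarith
  refine ⟨K * C4, fun x hx => ?_⟩
  have h1 := h R hR hB (fun y => K⁻¹ * f y) (hf.const_mul _) (by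
    intro y hy
    have hQ : y ∈ Qd := hy.2
    have hp := im_sq_pos hQ
    rw [abs_mul, abs_of_pos (inv_pos.mpr hK0), inv_mul_le_iff₀ hK0]
    exact (hC y hy).trans (mul_le_mul_of_nonneg_right (le_max_left _ _) hp.le)) x hx
  have h2 : TD (Ddom R) (fun y => K⁻¹ * f y) x = K⁻¹ * TD (Ddom R) f x := by
    unfold TD
    rw [← integral_const_mul]
    refine integral_congr_ae (Eventually.of_forall fun y => ?_)
    show gD (Ddom R) x y * (K⁻¹ * f y) = K⁻¹ * (gD (Ddom R) x y * f y)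
    ring
  rw [h2, abs_mul, abs_of_pos (inv_pos.mpr hK0), inv_mul_le_iff₀ hK0] at h1
  linarith [h1]

theorem tau_nonneg (y : ℂ) : 0 ≤ tau y := by
  unfold tau
  exact le_min (by norm_num) (by positivity)

theorem tau_le_one (y : ℂ) : tau y ≤ 1 := by
  unfold tau
  exact (min_le_left _ _).trans (by norm_num)

theorem tau_pow_le (y : ℂ) {p : ℕ} (hp : 20 ≤ p) : tau y ^ p ≤ ‖y‖ ^ 5 := by
  have h1 : tau y ^ p ≤ tau y ^ 20 := pow_le_pow_of_le_one (tau_nonneg y) (tau_le_one y) hp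
  refine h1.trans ?_
  have h2 : tau y ≤ ‖y‖ ^ ((1 : ℝ) / 4) := min_le_right _ _
  refine (pow_le_pow_left₀ (tau_nonneg y) h2 20).trans (le_of_eq ?_)
  rw [← Real.rpow_natCast, ← Real.rpow_mul (norm_nonneg _), ← Real.rpow_natCast]
  norm_num

theorem abs_clamp_le {t s : ℝ} (hs : 0 ≤ s) : |max (-s) (min t s)| ≤ s := by
  rw [abs_le]
  exact ⟨le_max_left _ _, max_le (by linarith) (min_le_right _ _)⟩

theorem gp_off {W1 W2 : Set ℂ} {p : ℕ} {y : ℂ} (h1 : y ∉ W1) (h2 : y ∉ W2) (t : ℝ) :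
    |gp W1 W2 tau p y t| ≤ tau y ^ p := by
  unfold gp
  rw [if_neg h1, if_neg h2, abs_pow]
  exact pow_le_pow_left₀ (abs_nonneg _) (abs_clamp_le (tau_nonneg y)) p

/-- total mass of `mu`. -/
theorem mass (h : DF D) (Bd : ℝ) (hBd : ∀ y ∈ D, ‖y‖ ≤ Bd) (W1 W2 : Set ℂ) (cp : ℝ) (hcp : 0 < cp)
    (hc : ∀ y ∈ W1 ∪ W2, cp ≤ psi y) {p : ℕ} (hp : 20 ≤ p) (t : ℂ → ℝ) (C0 : ℝ)
    (hi : Integrable (fun y => gp W1 W2 tau p y (t y)) (lamD D))
    (hC0 : ∫ y, |gp W1 W2 tau p y (t y)| ∂(lamD D) ≤ C0) :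
    ∫⁻ y in D, ‖psi y / ‖y‖ ^ 4 * gp W1 W2 tau p y (t y)‖ₑ ≤
      ENNReal.ofReal (cp⁻¹ * C0 + Bd ^ 2 * (volume D).toReal) := by
  have hfin := h.fin
  have hDm : MeasurableSet D := h.op.measurableSet
  set G : ℂ → ℝ := fun y => gp W1 W2 tau p y (t y) with hG
  have hGm : AEStronglyMeasurable G (volume.restrict D) := hi.1.mono_ac (ac_lamD hDm h.sub)
  have hi2 : IntegrableOn (fun y => rho y * |G y|) D := by
    have := (integrable_lamD D (fun y => |G y|)).1 hi.abs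
    simpa only [smul_eq_mul] using this
  have hC02 : ∫ y in D, rho y * |G y| ≤ C0 := by
    have := integral_lamD D (fun y => |G y|)
    simp only [smul_eq_mul] at this
    rw [← this]; exact hC0
  have hpt : ∀ y ∈ D, |psi y / ‖y‖ ^ 4 * G y| ≤ cp⁻¹ * (rho y * |G y|) + Bd ^ 2 := by
    intro y hy
    have hQ := h.sub hy
    have hps := psi_pos hQ
    have hn := norm_pos_Qd hQ
    have hB := hBd y hy
    rw [abs_mul, abs_of_pos (by positivity : 0 < psi y / ‖y‖ ^ 4)]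
    by_cases hW : y ∈ W1 ∪ W2
    · have h1 : psi y / ‖y‖ ^ 4 * |G y| = (psi y)⁻¹ * (rho y * |G y|) := by
        unfold rho; field_simp
      rw [h1]
      have h2 : (psi y)⁻¹ ≤ cp⁻¹ := inv_anti₀ hcp (hc y hW)
      have h3 : 0 ≤ rho y * |G y| := mul_nonneg (rho_nonneg y) (abs_nonneg _)
      have h4 : (psi y)⁻¹ * (rho y * |G y|) ≤ cp⁻¹ * (rho y * |G y|) :=
        mul_le_mul_of_nonneg_right h2 h3
      have h5 : 0 ≤ Bd ^ 2 := sq_nonneg _
      linarith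
    · have hW1 : y ∉ W1 := fun hh => hW (Or.inl hh)
      have hW2 : y ∉ W2 := fun hh => hW (Or.inr hh)
      have h1 : |G y| ≤ ‖y‖ ^ 5 := (gp_off hW1 hW2 (t y)).trans (tau_pow_le y hp)
      have h2 : psi y / ‖y‖ ^ 4 * |G y| ≤ psi y / ‖y‖ ^ 4 * ‖y‖ ^ 5 :=
        mul_le_mul_of_nonneg_left h1 (by positivity)
      have h3 : psi y / ‖y‖ ^ 4 * ‖y‖ ^ 5 = psi y * ‖y‖ := by field_simp
      have h4 : psi y * ‖y‖ ≤ Bd ^ 2 := by
        have := psi_le_norm hQ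
        nlinarith
      have h5 : 0 ≤ cp⁻¹ * (rho y * |G y|) := by
        have := rho_nonneg y
        positivity
      linarith
  have hint : IntegrableOn (fun y => cp⁻¹ * (rho y * |G y|) + Bd ^ 2) D :=
    (hi2.const_mul _).add (integrable_const _)
  have hmu : IntegrableOn (fun y => psi y / ‖y‖ ^ 4 * G y) D := by
    refine Integrable.mono' hint
      (((measurable_psi.div (measurable_norm.pow_const 4)).aestronglyMeasurable).mul hGm) ?_
    filter_upwards [ae_restrict_mem hDm] with y hy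
    rw [Real.norm_eq_abs]
    exact hpt y hy
  have h1 : ∫⁻ y in D, ‖psi y / ‖y‖ ^ 4 * G y‖ₑ =
      ENNReal.ofReal (∫ y in D, ‖psi y / ‖y‖ ^ 4 * G y‖) :=
    (ofReal_integral_norm_eq_lintegral_enorm hmu).symm
  rw [h1]
  refine ENNReal.ofReal_le_ofReal ?_
  calc ∫ y in D, ‖psi y / ‖y‖ ^ 4 * G y‖ ≤ ∫ y in D, (cp⁻¹ * (rho y * |G y|) + Bd ^ 2) := by
        refine setIntegral_mono_on hmu.norm hint hDm fun y hy => ?_
        rw [Real.norm_eq_abs]; exact hpt y hy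
    _ = cp⁻¹ * (∫ y in D, rho y * |G y|) + Bd ^ 2 * (volume D).toReal := by
        rw [integral_add (hi2.const_mul _) (integrable_const _), integral_const_mul,
          integral_const]
        simp [Measure.real, mul_comm]
    _ ≤ _ := by
        have : cp⁻¹ * (∫ y in D, rho y * |G y|) ≤ cp⁻¹ * C0 :=
          mul_le_mul_of_nonneg_left hC02 (inv_nonneg.mpr hcp.le)
        linarith


theorem add8 (a b : ENNReal) : (a + b) ^ 8 ≤ 256 * (a ^ 8 + b ^ 8) := by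
  rcases le_total a b with h | h
  · calc (a + b) ^ 8 ≤ (b + b) ^ 8 := by gcongr
      _ = 256 * b ^ 8 := by rw [← two_mul, mul_pow]; norm_num
      _ ≤ _ := by gcongr; exact le_add_self
  · calc (a + b) ^ 8 ≤ (a + a) ^ 8 := by gcongr
      _ = 256 * a ^ 8 := by rw [← two_mul, mul_pow]; norm_num
      _ ≤ _ := by gcongr; exact le_self_add

theorem l2sq {μ : Measure ℂ} (f : Lp ℝ 2 μ) : ∫⁻ y, ‖f y‖ₑ ^ 2 ∂μ = ENNReal.ofReal (‖f‖ ^ 2) := by
  have h1 : ‖f‖ ^ 2 = ∫ y, f y * f y ∂μ := by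
    rw [← real_inner_self_eq_norm_sq, L2.inner_def]
    refine integral_congr_ae (Eventually.of_forall fun y => ?_)
    show ⟪f y, f y⟫_ℝ = f y * f y
    simp [pow_two]
  have h2 : Integrable (fun y => f y * f y) μ := by
    have := L2.integrable_inner (𝕜 := ℝ) f f
    refine this.congr (Eventually.of_forall fun y => ?_)
    show ⟪f y, f y⟫_ℝ = f y * f y
    simp [pow_two]
  rw [h1, ofReal_integral_eq_lintegral_ofReal h2 (Eventually.of_forall fun y => mul_self_nonneg _)]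
  refine lintegral_congr fun y => ?_
  rw [← pow_two, ← sq_abs, ENNReal.ofReal_pow (abs_nonneg _), ← Real.norm_eq_abs, ofReal_norm]

theorem i8 {μ : Measure ℂ} (f : ℂ → ℝ) (B : ℝ) (hi : Integrable (fun y => f y ^ 8) μ)
    (hB : ∫ y, f y ^ 8 ∂μ ≤ B) : ∫⁻ y, ‖f y‖ₑ ^ 8 ∂μ ≤ ENNReal.ofReal B := by
  have h6 : ∀ y, ENNReal.ofReal (f y ^ 8) = ‖f y‖ₑ ^ 8 := by
    intro y
    have : f y ^ 8 = ‖f y‖ ^ 8 := by
      rw [Real.norm_eq_abs]
      exact (Even.pow_abs (by decide : Even 8) (f y)).symm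
    rw [this, ENNReal.ofReal_pow (norm_nonneg _), ofReal_norm]
  simp only [← h6]
  rw [← ofReal_integral_eq_lintegral_ofReal hi (Eventually.of_forall fun y => by
    show 0 ≤ f y ^ 8
    positivity)]
  exact ENNReal.ofReal_le_ofReal hB

theorem exists_eps (CT Bd K : ℝ) : ∃ ε : ℝ, 0 < ε ∧
    CT * Bd ^ ((1 : ℝ) / 2) * ((ε ^ 2) ^ ((2 : ℝ) / 3) * K ^ ((1 : ℝ) / 3)) ^ ((1 : ℝ) / 4) ≤ 1 / 20 := by
  have hc : Continuous fun ε : ℝ =>
      CT * Bd ^ ((1 : ℝ) / 2) * ((ε ^ 2) ^ ((2 : ℝ) / 3) * K ^ ((1 : ℝ) / 3)) ^ ((1 : ℝ) / 4) := by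
    refine continuous_const.mul (Continuous.rpow_const ?_ fun x => Or.inr (by norm_num))
    exact ((continuous_pow 2).rpow_const fun x => Or.inr (by norm_num)).mul continuous_const
  have h0 := (hc.tendsto 0)
  have h1 : CT * Bd ^ ((1 : ℝ) / 2) * (((0 : ℝ) ^ 2) ^ ((2 : ℝ) / 3) * K ^ ((1 : ℝ) / 3)) ^ ((1 : ℝ) / 4)
      < 1 / 20 := by
    have e1 : (((0 : ℝ) ^ 2) ^ ((2 : ℝ) / 3)) = 0 := by
      rw [zero_pow (by norm_num), Real.zero_rpow (by norm_num)]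
    rw [e1, zero_mul, Real.zero_rpow (by norm_num)]
    norm_num
  have h2 := h0.eventually (gt_mem_nhds h1)
  obtain ⟨δ, hδ, h3⟩ := Metric.eventually_nhds_iff.mp h2
  refine ⟨δ / 2, by linarith, (h3 ?_).le⟩
  rw [Real.dist_eq, sub_zero, abs_of_pos (by linarith)]
  linarith

theorem exists_psi_lb {K : Set ℂ} (hK : IsCompact K) (hQ : K ⊆ Qd) :
    ∃ c : ℝ, 0 < c ∧ ∀ y ∈ K, c ≤ psi y := by
  by_cases hne : K.Nonempty
  · obtain ⟨x, hx, hmin⟩ := hK.exists_isMinOn hne (continuousOn_psi.mono hQ)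
    exact ⟨psi x, psi_pos (hQ hx), fun y hy => hmin hy⟩
  · exact ⟨1, one_pos, fun y hy => absurd ⟨y, hy⟩ hne⟩

end LEP.APPm

namespace LEP

open APPm

theorem st_APP (habs : ST_ABS) (habsd : ST_ABSD) (hkap : ST_KAP) (h1 : ST_T1) (h2 : ST_T2)
    (h3 : ST_T3) (h4 : ST_T4) (hmeas : ST_MEAS) (hgf2 : ST_GF2) (hgeo : ST_GEO) : ST_APP := by
  intro R hR a b ha hab hb L hL hW hGood
  obtain ⟨-, hDo, hUb, -⟩ := hgeo.1 R hR
  have hgr := hgf2 R hR
  obtain ⟨hK1, hK2, hK3, hK4, hK5, hK6⟩ := hkap R hR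
  have hDF : DF (Ddom R) :=
    { op := hDo
      sub := inter_subset_right
      bd := hUb.subset inter_subset_left
      gr := hgr
      me := (hmeas _ _ hDo hgr).1
      l2 := hK1 }
  have hA := habsd R hR a b ha hab hb L hL hW
  obtain ⟨C0, hC0⟩ := habs _ _ _ _ _ _ _ hA
  obtain ⟨B, hB⟩ := hGood
  obtain ⟨-, ⟨C8, hC8⟩, -⟩ := h2 R hR
  obtain ⟨CT, hCT, hT1⟩ := h1
  set D : Set ℂ := Ddom R with hDdef
  have hfin := hDF.fin
  have hDm : MeasurableSet D := hDo.measurableSet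
  obtain ⟨Bd, hBd1, hBd⟩ : ∃ Bd : ℝ, 1 ≤ Bd ∧ ∀ y ∈ D, ‖y‖ ≤ Bd := by
    obtain ⟨M, hM⟩ := hDF.bd.exists_norm_le
    exact ⟨max M 1, le_max_right _ _, fun y hy => (hM y hy).trans (le_max_left _ _)⟩
  set W1 : Set ℂ := Wo a b L 0 with hW1
  set W2 : Set ℂ := Wo a b L 1 with hW2
  have hWD : W1 ∪ W2 ⊆ D := union_subset (hW 0) (hW 1)
  obtain ⟨cp, hcp, hcpl⟩ := exists_psi_lb (hA.c1.union hA.c2) (hWD.trans hDF.sub)
  -- windows have norm at least one
  have hWn : ∀ y ∈ W1 ∪ W2, 1 ≤ ‖y‖ := by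
    intro y hy
    rcases hy with hy | hy
    · refine le_trans ?_ hy.2.1
      exact Real.one_le_rpow hL.le (by simp [ee]; norm_num)
    · refine le_trans ?_ hy.2.1
      exact Real.one_le_rpow hL.le (by simp [ee]; norm_num)
  set N0 : ℝ := cp⁻¹ * C0 + Bd ^ 2 * (volume D).toReal with hN0
  set K8 : ℝ := (ENNReal.ofReal N0 ^ 8 * ENNReal.ofReal C8).toReal with hK8
  set K : ℝ := 256 * (K8 + |B|) with hK
  have hK80 : 0 ≤ K8 := ENNReal.toReal_nonneg
  have hK0 : 0 ≤ K := by have := abs_nonneg B; positivity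
  obtain ⟨ε, hε, hε2⟩ := exists_eps CT Bd K
  obtain ⟨P, hP⟩ := eventually_atTop.mp (hC0 ε hε)
  set p : ℕ := 2 * max P 20 + 1 with hp
  have hpP : P ≤ p := by have := le_max_left P 20; omega
  have hp20 : 20 ≤ p := by have := le_max_right P 20; omega
  have hodd : Odd p := ⟨_, rfl⟩
  obtain ⟨v, hGint, hv, ⟨m, hm, hvm⟩, hGi, hGC⟩ := hP p hpP hodd
  obtain ⟨hg1, hg2, hg3, hg4, hg5, hg6⟩ := hB m hm
  set U : ℂ → ℝ := fun y => ⟪kap D y, v⟫_ℝ with hU
  set G : ℂ → ℝ := fun y => gp W1 W2 tau p y (U y) with hG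
  set mu : ℂ → ℝ := fun y => psi y / ‖y‖ ^ 4 * G y with hmu
  obtain ⟨hrep, hprod⟩ := rep hDF G v hGint hGi.1 hv
  have hmum : AEStronglyMeasurable mu (volume.restrict D) :=
    (measurable_psi.div (measurable_norm.pow_const 4)).aestronglyMeasurable.mul
      (hGi.1.mono_ac (ac_lamD hDm hDF.sub))
  have hmass := mass hDF Bd hBd W1 W2 cp hcp hcpl hp20 U C0 hGi hGC
  have hv8 : ∫⁻ x in D, ‖v x‖ₑ ^ 8 ≤ ENNReal.ofReal K8 := by
    have h5 := L8bound hDF C8 hC8 mu hmum _ hmass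
    have h6 : ∫⁻ x in D, ‖v x‖ₑ ^ 8 = ∫⁻ x in D, ‖TD D mu x‖ₑ ^ 8 := by
      refine lintegral_congr_ae ?_
      filter_upwards [hrep] with x hx
      rw [hx]
    rw [h6, hK8, ENNReal.ofReal_toReal]
    · exact h5
    · exact ENNReal.mul_ne_top (ENNReal.pow_ne_top ENNReal.ofReal_ne_top) ENNReal.ofReal_ne_top
  have hm8 : ∫⁻ x in D, ‖m x‖ₑ ^ 8 ≤ ENNReal.ofReal |B| :=
    i8 _ _ hg5 (hg6.trans (le_abs_self B))
  -- the difference
  have hd8 : ∫⁻ x in D, ‖(v - m : Lp ℝ 2 (volume.restrict D)) x‖ₑ ^ 8 ≤ ENNReal.ofReal K := by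
    calc ∫⁻ x in D, ‖(v - m : Lp ℝ 2 (volume.restrict D)) x‖ₑ ^ 8
        ≤ ∫⁻ x in D, 256 * (‖v x‖ₑ ^ 8 + ‖m x‖ₑ ^ 8) := by
          refine lintegral_mono_ae ?_
          filter_upwards [Lp.coeFn_sub v m] with x hx
          rw [hx, Pi.sub_apply]
          refine le_trans ?_ (add8 _ _)
          gcongr
          exact enorm_sub_le
      _ = 256 * ((∫⁻ x in D, ‖v x‖ₑ ^ 8) + (∫⁻ x in D, ‖m x‖ₑ ^ 8)) := by
          have hmv : AEMeasurable (fun x => ‖v x‖ₑ ^ 8) (volume.restrict D) :=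
            ((Lp.aestronglyMeasurable v).enorm).pow_const 8
          have hmm : AEMeasurable (fun x => ‖m x‖ₑ ^ 8) (volume.restrict D) :=
            ((Lp.aestronglyMeasurable m).enorm).pow_const 8
          have e5 := lintegral_const_mul'' (μ := volume.restrict D) (256 : ENNReal) (hmv.add hmm)
          simp only [Pi.add_apply] at e5
          rw [e5, lintegral_add_left' hmv]
      _ ≤ 256 * (ENNReal.ofReal K8 + ENNReal.ofReal |B|) := by gcongr
      _ = ENNReal.ofReal K := by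
          rw [hK, ENNReal.ofReal_mul (by norm_num), ENNReal.ofReal_add hK80 (abs_nonneg _)]
          norm_num
  have hd2 : ∫⁻ x in D, ‖(v - m : Lp ℝ 2 (volume.restrict D)) x‖ₑ ^ 2 ≤ ENNReal.ofReal (ε ^ 2) := by
    rw [l2sq]
    refine ENNReal.ofReal_le_ofReal (pow_le_pow_left₀ (norm_nonneg _) hvm.le 2)
  obtain ⟨hi4, hI4⟩ := interp (volume.restrict D) (v - m : Lp ℝ 2 (volume.restrict D))
    (Lp.aestronglyMeasurable _) (ε ^ 2) K (sq_nonneg _) hK0 hd2 hd8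
  set δ : ℝ := ((ε ^ 2) ^ ((2 : ℝ) / 3) * K ^ ((1 : ℝ) / 3)) ^ ((1 : ℝ) / 4) with hδ
  have hδ0 : 0 ≤ δ := by positivity
  have hdiff : ∀ y ∈ D, |U y - ⟪kap D y, m⟫_ℝ| ≤ CT * ‖y‖ ^ ((1 : ℝ) / 2) * δ := by
    intro y hy
    have hps := psi_pos (hDF.sub hy)
    have e1 : U y - ⟪kap D y, m⟫_ℝ = TD D (v - m : Lp ℝ 2 (volume.restrict D)) y / psi y := by
      rw [← hK3 y hy, hU]
      simp only
      rw [← inner_sub_right]
    have e2 := (hT1 R hR _ (Lp.aestronglyMeasurable _) hi4 y hy).2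
    have e3 : (∫ y in D, ((v - m : Lp ℝ 2 (volume.restrict D)) y) ^ 4) ^ ((1 : ℝ) / 4) ≤ δ := by
      refine Real.rpow_le_rpow ?_ hI4 (by norm_num)
      exact integral_nonneg fun y => by positivity
    rw [e1, abs_div, abs_of_pos hps, div_le_iff₀ hps]
    refine e2.trans ?_
    have e4 : 0 ≤ CT * psi y * ‖y‖ ^ ((1 : ℝ) / 2) := by positivity
    refine (mul_le_mul_of_nonneg_left e3 e4).trans (le_of_eq ?_)
    ring
  have hsmall : CT * δ ≤ 1 / 20 := by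
    refine le_trans ?_ hε2
    have : (1 : ℝ) ≤ Bd ^ ((1 : ℝ) / 2) := Real.one_le_rpow hBd1 (by norm_num)
    have h5 : 0 ≤ CT * δ := by positivity
    calc CT * δ = CT * 1 * δ := by ring
      _ ≤ CT * Bd ^ ((1 : ℝ) / 2) * δ := by gcongr
  have hdiff2 : ∀ y ∈ D, |U y - ⟪kap D y, m⟫_ℝ| ≤ 1 / 20 := by
    intro y hy
    refine (hdiff y hy).trans (le_trans ?_ hε2)
    have := hBd y hy
    gcongr
  have hdiff3 : ∀ y ∈ D, |U y - ⟪kap D y, m⟫_ℝ| ≤ ‖y‖ ^ ((1 : ℝ) / 2) / 20 := by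
    intro y hy
    refine (hdiff y hy).trans ?_
    have h5 : (0 : ℝ) ≤ ‖y‖ ^ ((1 : ℝ) / 2) := by positivity
    calc CT * ‖y‖ ^ ((1 : ℝ) / 2) * δ = ‖y‖ ^ ((1 : ℝ) / 2) * (CT * δ) := by ring
      _ ≤ ‖y‖ ^ ((1 : ℝ) / 2) * (1 / 20) := mul_le_mul_of_nonneg_left hsmall h5
      _ = _ := by ring
  -- the truncation is not active
  have htau1 : ∀ y : ℂ, 1 ≤ ‖y‖ → tau y = 19 / 20 := by
    intro y hy
    unfold tau
    refine min_eq_left ?_
    have : (1 : ℝ) ≤ ‖y‖ ^ ((1 : ℝ) / 4) := Real.one_le_rpow hy (by norm_num)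
    linarith
  have hoff : ∀ y ∈ D, y ∉ W1 → y ∉ W2 → |U y| ≤ tau y := by
    intro y hy hy1 hy2
    rcases le_total 4 ‖y‖ with h4y | h4y
    · rw [htau1 y (by linarith)]
      have h5 := hg1 y hy h4y hy1 hy2
      have h6 := hdiff2 y hy
      have h7 := abs_sub_abs_le_abs_sub (U y) ⟪kap D y, m⟫_ℝ
      linarith
    · have h5 := hg2 y hy h4y
      have h6 := hdiff3 y hy
      have h7 := abs_sub_abs_le_abs_sub (U y) ⟪kap D y, m⟫_ℝ
      have h8 : |U y| ≤ 3 / 10 * ‖y‖ ^ ((1 : ℝ) / 2) := by linarith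
      have hn := norm_pos_Qd (hDF.sub hy)
      have h9 : ‖y‖ ^ ((1 : ℝ) / 2) ≤ 2 := by
        have : ‖y‖ ^ ((1 : ℝ) / 2) ≤ (4 : ℝ) ^ ((1 : ℝ) / 2) :=
          Real.rpow_le_rpow hn.le h4y (by norm_num)
        refine this.trans (le_of_eq ?_)
        rw [← Real.sqrt_eq_rpow]
        rw [show (4 : ℝ) = 2 ^ 2 by norm_num, Real.sqrt_sq (by norm_num)]
      have h10 : ‖y‖ ^ ((1 : ℝ) / 2) = ‖y‖ ^ ((1 : ℝ) / 4) * ‖y‖ ^ ((1 : ℝ) / 4) := by
        rw [← Real.rpow_add hn]; norm_num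
      have h11 : ‖y‖ ^ ((1 : ℝ) / 4) ≤ 2 := by
        by_contra hcon
        push Not at hcon
        nlinarith
      have h12 : 0 < ‖y‖ ^ ((1 : ℝ) / 4) := by positivity
      unfold tau
      refine le_min ?_ ?_
      · linarith
      · refine h8.trans ?_
        rw [h10]
        nlinarith
  have hon1 : ∀ y ∈ W1, -tau y ≤ U y := by
    intro y hy
    have hyD : y ∈ D := hWD (Or.inl hy)
    rw [htau1 y (hWn y (Or.inl hy))]
    have h5 := hg3 y hy
    have h6 := (abs_le.mp (hdiff2 y hyD)).1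
    linarith
  have hon2 : ∀ y ∈ W2, U y ≤ tau y := by
    intro y hy
    have hyD : y ∈ D := hWD (Or.inr hy)
    rw [htau1 y (hWn y (Or.inr hy))]
    have h5 := hg4 y hy
    have h6 := (abs_le.mp (hdiff2 y hyD)).2
    linarith
  have hGU : ∀ y ∈ D, G y = U y ^ p := by
    intro y hy
    show gp W1 W2 tau p y (U y) = U y ^ p
    unfold gp
    by_cases hy1 : y ∈ W1
    · rw [if_pos hy1, max_eq_left (hon1 y hy1)]
    · rw [if_neg hy1]
      by_cases hy2 : y ∈ W2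
      · rw [if_pos hy2, min_eq_left (hon2 y hy2)]
      · rw [if_neg hy2]
        have h5 := abs_le.mp (hoff y hy hy1 hy2)
        rw [min_eq_left h5.2, max_eq_right h5.1]
  -- definition of the solution
  set w : ℂ → ℝ := fun y => psi y * U y with hw
  set mu' : ℂ → ℝ := fun y => psi y / ‖y‖ ^ 4 * (w y / psi y) ^ p with hmu'
  have hmumu' : ∀ y ∈ D, mu' y = mu y := by
    intro y hy
    have hps := psi_pos (hDF.sub hy)
    rw [hmu', hmu]
    simp only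
    rw [hGU y hy, hw]
    simp only
    rw [mul_div_cancel_left₀ _ hps.ne']
  have hTmu : ∀ x, TD D mu' x = TD D mu x := by
    intro x
    unfold TD
    refine setIntegral_congr_fun hDm fun y hy => ?_
    show gD D x y * mu' y = gD D x y * mu y
    rw [hmumu' y hy]
  have hUc : ContinuousOn U D := hK4.inner continuousOn_const
  have hpsc : ContinuousOn psi D := continuousOn_psi.mono hDF.sub
  have hwc : ContinuousOn w D := hpsc.mul hUc
  have hmuc : ContinuousOn mu' D := by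
    refine (hpsc.div (by fun_prop) ?_).mul ((hwc.div hpsc ?_).pow p)
    · intro y hy
      have := norm_pos_Qd (hDF.sub hy)
      positivity
    · intro y hy
      exact (psi_pos (hDF.sub hy)).ne'
  have hmum' : AEStronglyMeasurable mu' (volume.restrict D) := hmuc.aestronglyMeasurable hDm
  -- bound of U on the windows
  obtain ⟨KU, hKU1, hKU⟩ : ∃ KU : ℝ, 1 ≤ KU ∧ ∀ y ∈ D, |U y| ≤ KU := by
    have hcW : IsCompact (W1 ∪ W2) := hA.c1.union hA.c2
    obtain ⟨M, hM⟩ := hcW.exists_bound_of_continuousOn (hUc.mono hWD)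
    refine ⟨max M 1, le_max_right _ _, fun y hy => ?_⟩
    by_cases hyW : y ∈ W1 ∪ W2
    · exact (hM y hyW).trans (le_max_left _ _)
    · refine (hoff y hy (fun hh => hyW (Or.inl hh)) (fun hh => hyW (Or.inr hh))).trans ?_
      exact (tau_le_one y).trans (le_max_right _ _)
  have hbmu : ∀ y ∈ D, |mu' y| ≤ KU ^ p * (y ^ 2).im := by
    intro y hy
    have hQ := hDF.sub hy
    have hps := psi_pos hQ
    have hn := norm_pos_Qd hQ
    have hpm := psi_mul_norm y hQ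
    have him := im_sq_pos hQ
    rw [hmumu' y hy, hmu]
    simp only
    rw [abs_mul, abs_of_pos (by positivity : 0 < psi y / ‖y‖ ^ 4), hGU y hy, abs_pow]
    rcases le_total 1 ‖y‖ with h1y | h1y
    · have h5 : |U y| ^ p ≤ KU ^ p := pow_le_pow_left₀ (abs_nonneg _) (hKU y hy) p
      have h6 : psi y / ‖y‖ ^ 4 ≤ (y ^ 2).im := by
        rw [div_le_iff₀ (by positivity)]
        have h7 : (1 : ℝ) ≤ ‖y‖ ^ 4 := one_le_pow₀ h1y
        have h8 : psi y ≤ (y ^ 2).im := by nlinarith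
        nlinarith
      calc psi y / ‖y‖ ^ 4 * |U y| ^ p ≤ (y ^ 2).im * KU ^ p := by gcongr
        _ = _ := by ring
    · rcases eq_or_lt_of_le h1y with h1e | h1l
      · have h5 : |U y| ^ p ≤ KU ^ p := pow_le_pow_left₀ (abs_nonneg _) (hKU y hy) p
        have h6 : psi y / ‖y‖ ^ 4 ≤ (y ^ 2).im := by
          rw [h1e] at hpm ⊢
          rw [one_pow, div_one]
          linarith
        calc psi y / ‖y‖ ^ 4 * |U y| ^ p ≤ (y ^ 2).im * KU ^ p := by gcongr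
          _ = _ := by ring
      · have hy1 : y ∉ W1 := fun hh => by have := hWn y (Or.inl hh); linarith
        have hy2 : y ∉ W2 := fun hh => by have := hWn y (Or.inr hh); linarith
        have h5 : |U y| ^ p ≤ ‖y‖ ^ 5 :=
          (pow_le_pow_left₀ (abs_nonneg _) (hoff y hy hy1 hy2) p).trans (tau_pow_le y hp20)
        have h6 : psi y / ‖y‖ ^ 4 * ‖y‖ ^ 5 = psi y * ‖y‖ := by field_simp
        have h7 : (1 : ℝ) ≤ KU ^ p := one_le_pow₀ hKU1
        calc psi y / ‖y‖ ^ 4 * |U y| ^ p ≤ psi y / ‖y‖ ^ 4 * ‖y‖ ^ 5 := by gcongr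
          _ = (y ^ 2).im / 2 := by rw [h6, hpm]
          _ ≤ KU ^ p * (y ^ 2).im := by nlinarith
  set z : ℂ → ℝ := TD D mu' with hz
  have hzb : ∃ C : ℝ, ∀ x ∈ D, |z x| ≤ C * (x ^ 2).im := T4' h4 hR mu' hmum' ⟨_, hbmu⟩
  have hzc : ContinuousOn z D :=
    (h3 R hR mu' hmum' (int4 hDF Bd hBd mu' _ hmum' hbmu)).1
  have hzm : AEStronglyMeasurable z (volume.restrict D) := hzc.aestronglyMeasurable hDm
  have hvz : (v : ℂ → ℝ) =ᵐ[volume.restrict D] z := by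
    filter_upwards [hrep] with x hx
    rw [hx]
    exact (hTmu x).symm
  have hwz : ∀ x ∈ D, w x = TD D z x := by
    intro x hx
    have hps := psi_pos (hDF.sub hx)
    have e1 : U x = TD D v x / psi x := hK3 x hx v
    have e2 : TD D v x = TD D z x := by
      unfold TD
      refine integral_congr_ae ?_
      filter_upwards [hvz] with y hy
      rw [hy]
    rw [hw]
    simp only
    rw [e1, e2, mul_div_cancel₀ _ hps.ne']
  refine ⟨p, w, z, ⟨hodd, hp20, hwc, hzc, ?_, hzb, ⟨_, hbmu⟩, fun x hx => rfl, hwz, ?_⟩⟩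
  · obtain ⟨C, hC⟩ := T4' h4 hR z hzm hzb
    exact ⟨C, fun y hy => by rw [hwz y hy]; exact hC y hy⟩
  · obtain ⟨x, hxW, hx1⟩ := hm.1.1
    have hxD : x ∈ D := hWD (Or.inl hxW)
    refine ⟨x, hxD, ?_⟩
    have h5 := (abs_le.mp (hdiff2 x hxD)).1
    have h6 : 0 < U x := by linarith
    have h7 := psi_pos (hDF.sub hxD)
    exact (mul_pos h7 h6).ne'

end LEP
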