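import Pool.Agent.Helper14.LE.Stmts2

open MeasureTheory Set Filter Topology InnerProductSpace Laplacian

noncomputable section

namespace LEP.APPm

/-- density of `lamD`. -/
def rho (y : ℂ) : ℝ := psi y ^ 2 / ‖y‖ ^ 4

theorem measurable_psi : Measurable psi := by
  unfold psi
  exact (Complex.measurable_re.mul Complex.measurable_im).div measurable_norm

theorem measurable_rho : Measurable rho := by
  unfold rho
  exact (measurable_psi.pow_const 2).div (measurable_norm.pow_const 4)

theorem rho_nonneg (y : ℂ) : 0 ≤ rho y := by unfold rho; positivity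

theorem psi_pos {y : ℂ} (hy : y ∈ Qd) : 0 < psi y := by
  have h1 : 0 < y.re := hy.1
  have h2 : 0 < y.im := hy.2
  have h3 : y ≠ 0 := by rintro rfl; simp at h1
  unfold psi
  have := norm_pos_iff.mpr h3
  positivity

theorem norm_pos_Qd {y : ℂ} (hy : y ∈ Qd) : 0 < ‖y‖ := by
  have h1 : 0 < y.re := hy.1
  have h3 : y ≠ 0 := by rintro rfl; simp at h1
  exact norm_pos_iff.mpr h3

theorem rho_pos {y : ℂ} (hy : y ∈ Qd) : 0 < rho y := by
  unfold rho
  have := psi_pos hy
  have := norm_pos_Qd hy
  positivity

theorem psi_mul_norm (y : ℂ) (hy : y ∈ Qd) : psi y * ‖y‖ = (y ^ 2).im / 2 := by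
  have := (norm_pos_Qd hy).ne'
  unfold psi
  rw [div_mul_cancel₀ _ this]
  simp [pow_two]; ring

theorem lamD_eq (D : Set ℂ) : lamD D = (volume.restrict D).withDensity (fun y => ENNReal.ofReal (rho y)) := rfl

theorem integral_lamD (D : Set ℂ) {E : Type*} [NormedAddCommGroup E] [NormedSpace ℝ E] (F : ℂ → E) :
    ∫ y, F y ∂(lamD D) = ∫ y in D, rho y • F y := by
  rw [lamD_eq, integral_withDensity_eq_integral_toReal_smul₀]
  · refine integral_congr_ae (Eventually.of_forall fun y => ?_)
    show (ENNReal.ofReal (rho y)).toReal • F y = _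
    rw [ENNReal.toReal_ofReal (rho_nonneg y)]
  · exact (measurable_rho.ennreal_ofReal).aemeasurable
  · exact Eventually.of_forall fun y => ENNReal.ofReal_lt_top

theorem integrable_lamD (D : Set ℂ) {E : Type*} [NormedAddCommGroup E] [NormedSpace ℝ E] (F : ℂ → E) :
    Integrable F (lamD D) ↔ IntegrableOn (fun y => rho y • F y) D := by
  rw [lamD_eq, integrable_withDensity_iff_integrable_smul₀']
  · refine integrable_congr (Eventually.of_forall fun y => ?_)
    show (ENNReal.ofReal (rho y)).toReal • F y = _
    rw [ENNReal.toReal_ofReal (rho_nonneg y)]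
  · exact (measurable_rho.ennreal_ofReal).aemeasurable
  · exact Eventually.of_forall fun y => ENNReal.ofReal_lt_top

theorem ac_lamD {D : Set ℂ} (hD : MeasurableSet D) (hQ : D ⊆ Qd) : volume.restrict D ≪ lamD D := by
  rw [lamD_eq]
  refine withDensity_absolutelyContinuous' (measurable_rho.ennreal_ofReal).aemeasurable ?_
  filter_upwards [ae_restrict_mem hD] with y hy
  exact (ENNReal.ofReal_pos.mpr (rho_pos (hQ hy))).ne'

end LEP.APPm
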