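import Pool.Agent.Helper14.LE.APP1

open MeasureTheory Set Filter Topology InnerProductSpace Laplacian

noncomputable section

namespace LEP.APPm

/-- standing facts on the domain. -/
structure DF (D : Set ℂ) : Prop where
  op : IsOpen D
  sub : D ⊆ Qd
  bd : Bornology.IsBounded D
  gr : IsGreen D (gD D)
  me : Measurable (fun q : ℂ × ℂ => gD D q.1 q.2)
  l2 : ∀ x ∈ D, MemLp (gD D x) 2 (volume.restrict D)

variable {D : Set ℂ}

theorem DF.fin (h : DF D) : IsFiniteMeasure (volume.restrict D) :=
  ⟨by rw [Measure.restrict_apply_univ]; exact h.bd.measure_lt_top⟩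

theorem DF.symm (h : DF D) (x y : ℂ) : gD D x y = gD D y x := by
  by_cases hx : x ∈ D
  · by_cases hy : y ∈ D
    · exact h.gr.symm x hx y hy
    · rw [h.gr.off x y (Or.inr hy), h.gr.off y x (Or.inl hy)]
  · rw [h.gr.off x y (Or.inl hx), h.gr.off y x (Or.inr hx)]

theorem kap_eq (h : DF D) {y : ℂ} (hy : y ∈ D) :
    kap D y = (psi y)⁻¹ • (h.l2 y hy).toLp := by
  unfold kap
  rw [dif_pos ⟨hy, h.l2 y hy⟩]

theorem kap_coe (h : DF D) {y : ℂ} (hy : y ∈ D) :
    (kap D y : ℂ → ℝ) =ᵐ[volume.restrict D] fun x => (psi y)⁻¹ * gD D y x := by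
  rw [kap_eq h hy]
  filter_upwards [Lp.coeFn_smul (psi y)⁻¹ (h.l2 y hy).toLp, (h.l2 y hy).coeFn_toLp] with x h1 h2
  rw [h1, Pi.smul_apply, h2, smul_eq_mul]

theorem norm_kap (h : DF D) {y : ℂ} (hy : y ∈ D) :
    ‖kap D y‖ = (psi y)⁻¹ * (eLpNorm (gD D y) 2 (volume.restrict D)).toReal := by
  rw [kap_eq h hy, norm_smul, Lp.norm_toLp, Real.norm_eq_abs,
    abs_of_nonneg (inv_nonneg.mpr (psi_pos (h.sub hy)).le)]

/-- `L¹` norm of the kernel. -/
theorem l1_le (h : DF D) {y : ℂ} (hy : y ∈ D) :
    ∫ x in D, gD D y x ≤ psi y * ‖kap D y‖ * ((volume D).toReal) ^ ((1 : ℝ) / 2) := by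
  haveI := h.fin
  have h1 : eLpNorm (gD D y) 1 (volume.restrict D) ≤ eLpNorm (gD D y) 2 (volume.restrict D) *
      (volume.restrict D univ) ^ ((1 : ℝ) / (1 : ENNReal).toReal - 1 / (2 : ENNReal).toReal) :=
    eLpNorm_le_eLpNorm_mul_rpow_measure_univ (by norm_num) (h.l2 y hy).1
  have h2 : ∫ x in D, gD D y x = (eLpNorm (gD D y) 1 (volume.restrict D)).toReal := by
    rw [eLpNorm_one_eq_lintegral_enorm, ← integral_norm_eq_lintegral_enorm (h.l2 y hy).1]
    refine integral_congr_ae (Eventually.of_forall fun x => ?_)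
    show _ = ‖gD D y x‖
    rw [Real.norm_eq_abs, abs_of_nonneg (h.gr.nonneg y x)]
  have hp := psi_pos (h.sub hy)
  rw [h2, norm_kap h hy, ← mul_assoc, mul_inv_cancel₀ hp.ne', one_mul]
  have h3 : (volume D) ≠ ⊤ := h.bd.measure_lt_top.ne
  refine (ENNReal.toReal_mono ?_ h1).trans ?_
  · refine ENNReal.mul_ne_top (h.l2 y hy).2.ne (ENNReal.rpow_ne_top_of_nonneg (by norm_num) ?_)
    rw [Measure.restrict_apply_univ]; exact h3
  · rw [ENNReal.toReal_mul, Measure.restrict_apply_univ, ← ENNReal.toReal_rpow]
    norm_num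

theorem rep (h : DF D) (G : ℂ → ℝ) (v : Lp ℝ 2 (volume.restrict D))
    (hG : Integrable (fun y => G y • kap D y) (lamD D)) (hGm : AEStronglyMeasurable G (lamD D))
    (hv : v = ∫ y, G y • kap D y ∂(lamD D)) :
    (v : ℂ → ℝ) =ᵐ[volume.restrict D] TD D (fun y => psi y / ‖y‖ ^ 4 * G y) ∧
    Integrable (fun q : ℂ × ℂ => gD D q.1 q.2 * (psi q.2 / ‖q.2‖ ^ 4 * G q.2))
      ((volume.restrict D).prod (volume.restrict D)) := by
  haveI := h.fin
  have hDm : MeasurableSet D := h.op.measurableSet
  have hGm' : AEStronglyMeasurable G (volume.restrict D) := hGm.mono_ac (ac_lamD hDm h.sub)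
  set mu : ℂ → ℝ := fun y => psi y / ‖y‖ ^ 4 * G y with hmu
  have hmum : AEStronglyMeasurable mu (volume.restrict D) :=
    (measurable_psi.div (measurable_norm.pow_const 4)).aestronglyMeasurable.mul hGm'
  -- integrability on the product
  have hG2 : IntegrableOn (fun y => rho y • (G y • kap D y)) D := (integrable_lamD D _).1 hG
  have hprod : Integrable (fun q : ℂ × ℂ => gD D q.1 q.2 * mu q.2)
      ((volume.restrict D).prod (volume.restrict D)) := by
    have hm : AEStronglyMeasurable (fun q : ℂ × ℂ => gD D q.1 q.2 * mu q.2)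
        ((volume.restrict D).prod (volume.restrict D)) :=
      h.me.aestronglyMeasurable.mul hmum.comp_snd
    rw [integrable_prod_iff' hm]
    constructor
    · filter_upwards [ae_restrict_mem hDm] with y hy
      have h1 : Integrable (gD D y) (volume.restrict D) := (h.l2 y hy).integrable (by norm_num)
      refine (h1.mul_const (mu y)).congr (Eventually.of_forall fun x => ?_)
      show gD D y x * mu y = gD D x y * mu y
      rw [h.symm]
    · have h1 : Integrable (fun y => ((volume D).toReal) ^ ((1 : ℝ) / 2) *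
          ‖rho y • (G y • kap D y)‖) (volume.restrict D) := (hG2.norm).const_mul _
      refine h1.mono ?_ ?_
      · exact (hm.norm.prod_swap).integral_prod_right'
      · filter_upwards [ae_restrict_mem hDm] with y hy
        have hp := psi_pos (h.sub hy)
        have hn := norm_pos_Qd (h.sub hy)
        rw [Real.norm_eq_abs, abs_of_nonneg (integral_nonneg fun x => norm_nonneg _),
          Real.norm_eq_abs, abs_of_nonneg (by positivity)]
        have h2 : ∫ x in D, ‖gD D x y * mu y‖ = |mu y| * ∫ x in D, gD D y x := by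
          rw [← integral_const_mul]
          refine integral_congr_ae (Eventually.of_forall fun x => ?_)
          show ‖gD D x y * mu y‖ = |mu y| * gD D y x
          rw [norm_mul, h.symm x y, Real.norm_eq_abs, Real.norm_eq_abs,
            abs_of_nonneg (h.gr.nonneg y x), mul_comm]
        rw [h2]
        refine (mul_le_mul_of_nonneg_left (l1_le h hy) (abs_nonneg _)).trans (le_of_eq ?_)
        rw [norm_smul, norm_smul, Real.norm_eq_abs, Real.norm_eq_abs, abs_of_pos (rho_pos (h.sub hy)),
          hmu]
        simp only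
        rw [abs_mul, abs_of_pos (by positivity : 0 < psi y / ‖y‖ ^ 4)]
        unfold rho
        ring
  refine ⟨?_, hprod⟩
  have hT : TD D mu = fun x => ∫ y in D, gD D x y * mu y := rfl
  refine Integrable.ae_eq_of_forall_setIntegral_eq _ _ ?_ ?_ ?_
  · exact (Lp.memLp v).integrable (by norm_num)
  · rw [hT]; exact hprod.integral_prod_left
  · intro s hs hμs
    rw [← L2.inner_indicatorConstLp_one (𝕜 := ℝ) hs hμs.ne v, hv, ← integral_inner hG,
      integral_lamD]
    have h3 : ∀ y ∈ D, rho y • ⟪indicatorConstLp 2 hs hμs.ne (1 : ℝ), G y • kap D y⟫_ℝ =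
        ∫ x in s, gD D x y * mu y ∂(volume.restrict D) := by
      intro y hy
      have hp := psi_pos (h.sub hy)
      have hn := norm_pos_Qd (h.sub hy)
      rw [inner_smul_right, L2.inner_indicatorConstLp_one (𝕜 := ℝ) hs hμs.ne]
      have h4 : ∫ x in s, (kap D y) x ∂(volume.restrict D) =
          ∫ x in s, (psi y)⁻¹ * gD D y x ∂(volume.restrict D) :=
        integral_congr_ae (ae_restrict_of_ae (kap_coe h hy))
      rw [h4, integral_const_mul]
      have h5 : ∫ x in s, gD D x y * mu y ∂(volume.restrict D) =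
          (∫ x in s, gD D y x ∂(volume.restrict D)) * mu y := by
        rw [← integral_mul_const]
        refine integral_congr_ae (Eventually.of_forall fun x => ?_)
        show gD D x y * mu y = gD D y x * mu y
        rw [h.symm]
      rw [h5, hmu, smul_eq_mul]
      simp only
      unfold rho
      field_simp
    have h6 : ∫ y in D, rho y • ⟪indicatorConstLp 2 hs hμs.ne (1 : ℝ), G y • kap D y⟫_ℝ =
        ∫ y in D, ∫ x in s, gD D x y * mu y ∂(volume.restrict D) :=
      setIntegral_congr_fun hDm (fun y hy => h3 y hy)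
    rw [h6, hT]
    have h7 : Integrable (Function.uncurry fun x y => gD D x y * mu y)
        (((volume.restrict D).restrict s).prod (volume.restrict D)) := by
      refine hprod.mono_measure ?_
      have : ((volume.restrict D).restrict s).prod (volume.restrict D) =
          ((volume.restrict D).prod (volume.restrict D)).restrict (s ×ˢ univ) := by
        conv_lhs => rw [← Measure.restrict_univ (μ := volume.restrict D)]
        rw [← Measure.prod_restrict]
        rw [Measure.restrict_univ]
      rw [this]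
      exact Measure.restrict_le_self
    exact (integral_integral_swap h7).symm

end LEP.APPm
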