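import Pool.Agent.Helper14.LE.APP2

open MeasureTheory Set Filter Topology InnerProductSpace Laplacian

noncomputable section

namespace LEP.APPm

theorem pow8 {α : Type*} [MeasurableSpace α] (ν : Measure α) (a b : α → ENNReal)
    (ha : AEMeasurable a ν) (hb : AEMeasurable b ν) :
    (∫⁻ y, a y * b y ∂ν) ^ 8 ≤ (∫⁻ y, b y ∂ν) ^ 7 * ∫⁻ y, a y ^ 8 * b y ∂ν := by
  have hpq : (8 : ℝ).HolderConjugate (8 / 7) := by
    rw [Real.holderConjugate_iff]; norm_num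
  have h1 := ENNReal.lintegral_mul_le_Lp_mul_Lq ν hpq
    (f := fun y => a y * b y ^ ((1 : ℝ) / 8)) (g := fun y => b y ^ ((7 : ℝ) / 8))
    (ha.mul (hb.pow_const _)) (hb.pow_const _)
  have h2 : ∀ y, (a y * b y ^ ((1 : ℝ) / 8)) * b y ^ ((7 : ℝ) / 8) = a y * b y := by
    intro y
    rw [mul_assoc, ← ENNReal.rpow_add_of_nonneg _ _ (by norm_num) (by norm_num)]
    norm_num
  have h3 : ∀ y, (a y * b y ^ ((1 : ℝ) / 8)) ^ (8 : ℝ) = a y ^ 8 * b y := by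
    intro y
    rw [ENNReal.mul_rpow_of_nonneg _ _ (by norm_num), ← ENNReal.rpow_mul]
    norm_num
  have h4 : ∀ y, (b y ^ ((7 : ℝ) / 8)) ^ ((8 : ℝ) / 7) = b y := by
    intro y
    rw [← ENNReal.rpow_mul]
    norm_num
  simp only [Pi.mul_apply] at h1
  simp only [h2, h3, h4] at h1
  calc (∫⁻ y, a y * b y ∂ν) ^ 8 ≤ ((∫⁻ y, a y ^ 8 * b y ∂ν) ^ ((1 : ℝ) / 8) *
        (∫⁻ y, b y ∂ν) ^ (1 / ((8 : ℝ) / 7))) ^ 8 := by gcongr
    _ = (∫⁻ y, b y ∂ν) ^ 7 * ∫⁻ y, a y ^ 8 * b y ∂ν := by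
      rw [mul_pow, mul_comm]
      congr 1
      · rw [← ENNReal.rpow_natCast, ← ENNReal.rpow_mul, ← ENNReal.rpow_natCast]
        norm_num
      · rw [← ENNReal.rpow_natCast, ← ENNReal.rpow_mul]
        norm_num

variable {D : Set ℂ}

theorem L8bound (h : DF D) (C8 : ℝ)
    (hC8 : ∀ x ∈ D, IntegrableOn (fun z => (gD D x z) ^ 8) D ∧ ∫ z in D, (gD D x z) ^ 8 ≤ C8)
    (mu : ℂ → ℝ) (hmu : AEStronglyMeasurable mu (volume.restrict D)) (N0 : ENNReal)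
    (hN : ∫⁻ y in D, ‖mu y‖ₑ ≤ N0) :
    ∫⁻ x in D, ‖TD D mu x‖ₑ ^ 8 ≤ N0 ^ 8 * ENNReal.ofReal C8 := by
  have hfin := h.fin
  have hDm : MeasurableSet D := h.op.measurableSet
  have hg : ∀ x, AEMeasurable (fun y => ‖gD D x y‖ₑ) (volume.restrict D) := fun x =>
    ((h.me.comp measurable_prodMk_left).enorm).aemeasurable
  have hb : AEMeasurable (fun y => ‖mu y‖ₑ) (volume.restrict D) := hmu.enorm
  have h1 : ∀ x, ‖TD D mu x‖ₑ ^ 8 ≤ N0 ^ 7 * ∫⁻ y in D, ‖gD D x y‖ₑ ^ 8 * ‖mu y‖ₑ := by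
    intro x
    have h2 : ‖TD D mu x‖ₑ ≤ ∫⁻ y in D, ‖gD D x y‖ₑ * ‖mu y‖ₑ := by
      unfold TD
      refine (enorm_integral_le_lintegral_enorm _).trans (le_of_eq ?_)
      refine lintegral_congr fun y => ?_
      exact enorm_mul _ _
    calc ‖TD D mu x‖ₑ ^ 8 ≤ (∫⁻ y in D, ‖gD D x y‖ₑ * ‖mu y‖ₑ) ^ 8 := by gcongr
      _ ≤ _ := pow8 _ _ _ (hg x) hb
      _ ≤ _ := by gcongr
  have hm2 : AEMeasurable (Function.uncurry fun x y => ‖gD D x y‖ₑ ^ 8 * ‖mu y‖ₑ)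
      ((volume.restrict D).prod (volume.restrict D)) :=
    ((h.me.enorm.pow_const 8).aemeasurable).mul (hmu.comp_snd.enorm)
  have hm3 : AEMeasurable (fun x => ∫⁻ y in D, ‖gD D x y‖ₑ ^ 8 * ‖mu y‖ₑ)
      (volume.restrict D) := hm2.lintegral_prod_right'
  calc ∫⁻ x in D, ‖TD D mu x‖ₑ ^ 8
      ≤ ∫⁻ x in D, N0 ^ 7 * ∫⁻ y in D, ‖gD D x y‖ₑ ^ 8 * ‖mu y‖ₑ := lintegral_mono h1
    _ = N0 ^ 7 * ∫⁻ x in D, ∫⁻ y in D, ‖gD D x y‖ₑ ^ 8 * ‖mu y‖ₑ :=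
        lintegral_const_mul'' _ hm3
    _ = N0 ^ 7 * ∫⁻ y in D, ∫⁻ x in D, ‖gD D x y‖ₑ ^ 8 * ‖mu y‖ₑ := by
        rw [lintegral_lintegral_swap hm2]
    _ ≤ N0 ^ 7 * ∫⁻ y in D, ENNReal.ofReal C8 * ‖mu y‖ₑ := by
        gcongr N0 ^ 7 * ?_
        refine setLIntegral_mono_ae' hDm (Eventually.of_forall fun y hy => ?_)
        rw [lintegral_mul_const'' _ (by
          exact ((h.me.comp measurable_prodMk_right).enorm.pow_const 8).aemeasurable)]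
        gcongr
        have h5 : ∫⁻ x in D, ‖gD D x y‖ₑ ^ 8 = ENNReal.ofReal (∫ z in D, (gD D y z) ^ 8) := by
          rw [ofReal_integral_eq_lintegral_ofReal (hC8 y hy).1
            (Eventually.of_forall fun z => by
              show 0 ≤ (gD D y z) ^ 8
              exact pow_nonneg (h.gr.nonneg y z) 8)]
          refine lintegral_congr fun x => ?_
          rw [h.symm x y, ENNReal.ofReal_pow (h.gr.nonneg y x),
            Real.enorm_eq_ofReal (h.gr.nonneg y x)]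
        rw [h5]
        exact ENNReal.ofReal_le_ofReal (hC8 y hy).2
    _ = N0 ^ 7 * (ENNReal.ofReal C8 * ∫⁻ y in D, ‖mu y‖ₑ) := by
        rw [lintegral_const_mul'' _ hb]
    _ ≤ N0 ^ 7 * (ENNReal.ofReal C8 * N0) := by gcongr
    _ = N0 ^ 8 * ENNReal.ofReal C8 := by ring

/-- interpolation `L⁴` between `L²` and `L⁸`. -/
theorem interp {α : Type*} [MeasurableSpace α] (ν : Measure α) (f : α → ℝ)
    (hf : AEStronglyMeasurable f ν) (A K : ℝ) (hA0 : 0 ≤ A) (hK0 : 0 ≤ K)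
    (hA : ∫⁻ y, ‖f y‖ₑ ^ 2 ∂ν ≤ ENNReal.ofReal A) (hK : ∫⁻ y, ‖f y‖ₑ ^ 8 ∂ν ≤ ENNReal.ofReal K) :
    Integrable (fun y => f y ^ 4) ν ∧
      ∫ y, f y ^ 4 ∂ν ≤ A ^ ((2 : ℝ) / 3) * K ^ ((1 : ℝ) / 3) := by
  have hpq : ((3 : ℝ) / 2).HolderConjugate 3 := by
    rw [Real.holderConjugate_iff]; norm_num
  have hm := hf.enorm
  have h1 := ENNReal.lintegral_mul_le_Lp_mul_Lq ν hpq
    (f := fun y => ‖f y‖ₑ ^ ((4 : ℝ) / 3)) (g := fun y => ‖f y‖ₑ ^ ((8 : ℝ) / 3))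
    (hm.pow_const _) (hm.pow_const _)
  have h2 : ∀ y, ‖f y‖ₑ ^ ((4 : ℝ) / 3) * ‖f y‖ₑ ^ ((8 : ℝ) / 3) = ‖f y‖ₑ ^ 4 := by
    intro y
    rw [← ENNReal.rpow_add_of_nonneg _ _ (by norm_num) (by norm_num), ← ENNReal.rpow_natCast]
    norm_num
  have h3 : ∀ y, (‖f y‖ₑ ^ ((4 : ℝ) / 3)) ^ ((3 : ℝ) / 2) = ‖f y‖ₑ ^ 2 := by
    intro y
    rw [← ENNReal.rpow_mul, ← ENNReal.rpow_natCast]
    norm_num
  have h4 : ∀ y, (‖f y‖ₑ ^ ((8 : ℝ) / 3)) ^ (3 : ℝ) = ‖f y‖ₑ ^ 8 := by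
    intro y
    rw [← ENNReal.rpow_mul, ← ENNReal.rpow_natCast]
    norm_num
  simp only [Pi.mul_apply] at h1
  simp only [h2, h3, h4] at h1
  have h5 : ∫⁻ y, ‖f y‖ₑ ^ 4 ∂ν ≤ ENNReal.ofReal (A ^ ((2 : ℝ) / 3) * K ^ ((1 : ℝ) / 3)) := by
    refine h1.trans ?_
    rw [ENNReal.ofReal_mul (by positivity), ← ENNReal.ofReal_rpow_of_nonneg hA0 (by norm_num),
      ← ENNReal.ofReal_rpow_of_nonneg hK0 (by norm_num)]
    have e1 : (1 : ℝ) / (3 / 2) = 2 / 3 := by norm_num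
    rw [e1]
    gcongr
  have h6 : ∀ y, ENNReal.ofReal (f y ^ 4) = ‖f y‖ₑ ^ 4 := by
    intro y
    have : f y ^ 4 = ‖f y‖ ^ 4 := by
      rw [Real.norm_eq_abs]
      exact (Even.pow_abs (by decide : Even 4) (f y)).symm
    rw [this, ENNReal.ofReal_pow (norm_nonneg _), ofReal_norm]
  have h7 : Integrable (fun y => f y ^ 4) ν := by
    refine ⟨hf.pow 4, ?_⟩
    rw [hasFiniteIntegral_iff_ofReal (Eventually.of_forall fun y => by positivity)]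
    simp only [h6]
    exact h5.trans_lt ENNReal.ofReal_lt_top
  refine ⟨h7, ?_⟩
  rw [integral_eq_lintegral_of_nonneg_ae (Eventually.of_forall fun y => by positivity) h7.1]
  simp only [h6]
  exact ENNReal.toReal_le_of_le_ofReal (by positivity) h5

end LEP.APPm
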