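import Pool.Agent.Helper14.LE.Stmts2

open MeasureTheory Set Filter Topology InnerProductSpace Laplacian

noncomputable section

namespace LEP

theorem RL_ge_one {L : ℝ} (hL : 16 ≤ L) : ∀ i, 1 ≤ RL L i := by
  have h1 : (1 : ℝ) ≤ L := by linarith
  intro i
  fin_cases i
  · show (1 : ℝ) ≤ L ^ (7 : ℝ)
    exact Real.one_le_rpow h1 (by norm_num)
  · show (1 : ℝ) ≤ L ^ (2 : ℝ)
    exact Real.one_le_rpow h1 (by norm_num)

theorem st_FINAL (hls : ST_LIFTSOL) (happ : ST_APP) (hmmi : ST_MMI) (hs1 : ST_S1)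
    (hdom : ST_DOM) (hgeo : ST_GEO) : ST_FINAL := by
  obtain ⟨-, -, -, -, a, b, a', b', hA⟩ := hs1
  obtain ⟨L, n, hL, hW, hG⟩ := hmmi a b a' b' hA
  have hRv := RL_ge_one hL
  have hP : Prof (Rn (RL L) n) := (hgeo.2 (RL L) hRv).2.1 n
  have hab : ∀ i, a i < b i := fun i => ((hA.h2 i).trans (hA.h3 i)).trans (hA.h4 i)
  obtain ⟨p, w, z, hS⟩ := happ _ hP a b hA.h1 hab hA.h5 L (by linarith) hW hG
  obtain ⟨u, v, hLE, hnt⟩ := hls (RL L) hRv n p w z hS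
  obtain ⟨hZ1, hZ2, hZ3, hD1, hD2⟩ := hdom
  obtain ⟨hsm, hcont, hhom, hpos, hOm, hfr, hcl⟩ := hD2 (RL L) hRv n
  obtain ⟨-, -, hbd, -⟩ := hD1 _ hP
  refine ⟨p, Om (Rn (RL L) n), Fg (Rn (RL L) n), u, v, hS.odd, hS.p20, ?_, hLE, hnt⟩
  refine ⟨hOm, hcont, hsm, hpos, hhom, hbd, ?_⟩
  intro x hx
  rw [hfr] at hx
  have hF1 : Fg (Rn (RL L) n) x = 1 := hx
  have hx0 : x ≠ 0 := by
    rintro rfl
    have h0 := hhom 0 le_rfl (0 : E6)
    simp only [zero_smul, zero_mul] at h0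
    rw [h0] at hF1
    exact zero_ne_one hF1
  have hdiff : DifferentiableAt ℝ (Fg (Rn (RL L) n)) x :=
    (hsm x hx0).differentiableAt (by simp)
  have hder : HasDerivAt (fun t : ℝ => Fg (Rn (RL L) n) (t • x))
      (fderiv ℝ (Fg (Rn (RL L) n)) x x) 1 := by
    have h1 : HasDerivAt (fun t : ℝ => t • x) x 1 := by
      simpa using (hasDerivAt_id (1 : ℝ)).smul_const x
    have h2 : HasFDerivAt (Fg (Rn (RL L) n)) (fderiv ℝ (Fg (Rn (RL L) n)) x) ((1 : ℝ) • x) := by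
      rw [one_smul]; exact hdiff.hasFDerivAt
    exact h2.comp_hasDerivAt (1 : ℝ) h1
  have hder2 : HasDerivAt (fun t : ℝ => Fg (Rn (RL L) n) (t • x)) (Fg (Rn (RL L) n) x) 1 := by
    have h1 : HasDerivAt (fun t : ℝ => t * Fg (Rn (RL L) n) x) (Fg (Rn (RL L) n) x) 1 := by
      simpa using (hasDerivAt_id (1 : ℝ)).mul_const (Fg (Rn (RL L) n) x)
    refine h1.congr_of_eventuallyEq ?_
    filter_upwards [lt_mem_nhds (zero_lt_one : (0 : ℝ) < 1)] with t ht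
    exact hhom t ht.le x
  rw [hder.unique hder2, hF1]
  exact one_pos

end LEP
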