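import Pool.Agent.Helper6.LE.MP
import Pool.Agent.Helper6.LE.MONO
import Pool.Agent.Helper6.LE.MEAS
import Pool.Agent.Helper6.LE.GEO
import Pool.Agent.Helper6.LE.FUND
import Pool.Agent.Helper8.LE.A3
import Pool.Agent.Helper8.LE.A4
import Pool.Agent.Helper8.LE.A5
import Pool.Agent.Helper12.LE.GQ2
import Pool.Agent.Helper12.LE.T1
import Pool.Agent.Helper12.LE.TM
import Pool.Agent.Helper12.LE.KAP
import Pool.Agent.Helper13.LE.SECG
import Pool.Agent.Helper13.LE.S1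
import Pool.Agent.Helper14.LE.APP
import Pool.Agent.Helper14.LE.FINAL
import Pool.Agent.Helper17.LE.GQ1
import Pool.Agent.Helper17.LE.TWO
import Pool.Agent.Helper17.LE.S57
import Pool.Agent.Helper17.LE.E3
import Pool.Agent.Helper18.LEP.WREG
import Pool.Agent.Helper23.LE.POT
import Pool.Agent.Helper23.LE.WEAK2
import Pool.Agent.Helper26.LE.T2
import Pool.Agent.Helper27.LE.A2
import Pool.Agent.Helper37.LE.E1
import Pool.Agent.Helper41.LE.MMI
import Pool.Agent.Helper44.LE.DOM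
import Pool.Agent.Helper50.LE.A1
import Pool.Agent.Helper50.LE.A6
import Pool.Agent.Helper53.LE.REG2
import Pool.Agent.Helper53.LE.REG6
import Pool.Agent.Helper53.LE.LIFTSOL
import Pool.Agent.Helper55.LE.SEC0
import Pool.Agent.Helper55.LE.S34
import Pool.Agent.Helper55.LE.E2
import Pool.Agent.Helper56.LE.ABSD
import Pool.Agent.Helper57.LE.ABS
import Pool.Agent.Helper59.LE.W2
import Pool.Agent.Helper61.LE.S2
import Pool.Agent.Helper61.LE.S6
import Pool.Agent.Helper64.LE.U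
import Pool.Agent.Helper64.LE.E3A
import Pool.Agent.Helper64.LE.W3
import Pool.Agent.Helper74.LE.T5
import Pool.Agent.Helper74.LE.BDY
import Pool.Agent.Helper76.LE.E456
import Pool.Agent.Helper77.LE.GF1
import Pool.Agent.Helper77.LE.GF2
import Pool.Agent.Helper77.LE.CUT
import Pool.Agent.Helper78.LE.W1
import Pool.Agent.Helper89.LE.GREP
import Pool.Agent.Helper89.LE.LIFT

namespace LEP.Fin

theorem mp : ST_MP := H6.st_MP
theorem mpb : ST_MPB := H6.st_MPB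
theorem mono : ST_MONO := H6.st_MONO mp
theorem cmp : ST_CMP := H6.st_CMP mp
theorem exh : ST_EXH := H6.st_EXH mp mono
theorem meas : ST_MEAS := H6.st_MEAS
theorem geo : ST_GEO := H6.st_GEO
theorem gf2 : ST_GF2 := st_GF2 mp mono geo
theorem pos : ST_POS := H6.st_POS gf2 geo
theorem gq1 : ST_GQ1 := st_GQ1 cmp
theorem gq2 : ST_GQ2 := st_GQ2 gq1
theorem t1 : ST_T1 := st_T1 gq1 gq2 meas gf2 geo
theorem t4 : ST_T4 := st_T4 gq1 gq2 meas gf2 geo
theorem t2 : ST_T2 := st_T2 gq1 gq2 meas gf2 geo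
theorem t3 : ST_T3 := st_T3 gq1 gq2 meas gf2 geo
theorem tm : ST_TM := st_TM mono exh meas gf2 geo t2
theorem t5 : ST_T5 := T5.st_T5 gq1 cmp gf2 geo
theorem grep : ST_GREP := st_GREP
theorem sec0 : ST_SEC0 := SEC0.st_SEC0
theorem secg : ST_SECG := SECG.st_SECG
theorem s1 : ST_S1 := S1.st_S1 sec0
theorem s2 : ST_S2 := Ker.st_S2 sec0
theorem s6 : ST_S6 := Ker.st_S6 sec0
theorem s3 : ST_S3 := S34.st_S3 s1
theorem s4 : ST_S4 := S34.st_S4 s1 s2
theorem u1 : ST_U1 := U.st_U1 mpb gf2 geo gq1 sec0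
theorem u2 : ST_U2 := U.st_U2 mpb mono gf2 geo gq1 sec0 secg
theorem u3 : ST_U3 := U.st_U3 mpb gf2 geo gq1
theorem e1 : ST_E1 := E1.st_E1 t2 tm sec0 s1 s2 s3 u1 u2 gf2 geo
theorem e3a : ST_E3A := U.st_E3A mpb pos gf2 geo mono secg sec0 gq1
theorem e4 : ST_E4 := E456.st_E4 u1 u2 sec0 s2 geo gf2 t2 tm
theorem e5 : ST_E5 := E456.st_E5 u1 u2 u3 sec0 s2 geo gf2 t1 t2 tm
theorem e6 : ST_E6 := E456.st_E6 u1 u2 sec0 s2 s6 geo gf2 t2 tm
theorem two : ST_TWO := st_TWO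
theorem kap' : ST_KAP := st_KAP gq1 gq2 t2 meas gf2 geo
theorem absd : ST_ABSD := H56.st_ABSD kap' grep gf2 geo t2
theorem a1 : ST_A1 := A1.st_A1
theorem a2 : ST_A2 := A2.st_A2
theorem a6 : ST_A6 := A6.st_A6
theorem fund2 : ST_FUND2 := H6.st_FUND2
theorem fund6 : ST_FUND6 := H6.st_FUND6
theorem pot : ST_POT := st_POT
theorem wreg : ST_WREG := st_WREG pot
theorem weak2 : ST_WEAK2 := st_WEAK2 grep meas gf2 t1 geo
theorem reg2 : ST_REG2 := st_REG2 weak2 wreg fund2 t3 geo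
theorem lift' : ST_LIFT := st_LIFT
theorem cut : ST_CUT := st_CUT
theorem reg6 : ST_REG6 := st_REG6 cut wreg fund6
theorem dom : ST_DOM := DOM.st_DOM geo
theorem bdy : ST_BDY := BDY.st_BDY t3 t5 dom geo
theorem liftsol : ST_LIFTSOL := st_LIFTSOL reg2 lift' reg6 dom bdy geo

theorem s5 : ST_S5 := st_S5 sec0
theorem s7 : ST_S7 := st_S7 sec0
theorem e2 : ST_E2 := E2.st_E2 t2 s1 s4 u2 geo
theorem e3 : ST_E3 := st_E3 sec0 geo gf2 t2 e3a s5 s7 u2
theorem w1 : ST_W1 := W1.st_W1 sec0 s1 e1 e2 e3 e4 geo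
theorem w2 : ST_W2 := W2.st_W2 w1 tm t2 geo
theorem w3 : ST_W3 := W3.st_W3 t2 gf2 geo sec0 s1 e1 e4 e5 e6
theorem mmi : ST_MMI := MMI.st_MMI w2 w3 two kap' t2 geo absd
theorem a3 : ST_A3 := st_A3
theorem a4 : ST_A4 := st_A4
theorem a5 : ST_A5 := st_A5
theorem abs' : ST_ABS := ABS.st_ABS a1 a2 a3 a4 a5 a6
theorem app : ST_APP := st_APP abs' absd kap' t1 t2 t3 t4 meas gf2 geo

end LEP.Fin

namespace LEP

theorem st_FINAL_all : ST_FINAL :=
  st_FINAL Fin.liftsol Fin.app Fin.mmi Fin.s1 Fin.dom Fin.geo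

end LEP
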