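import Mathlib

/-!
# MP_08fe4e_an, planar disproof: basic definitions

See `/team-store/le_planar.md` for the paper proof.
-/

open MeasureTheory Set Filter Topology InnerProductSpace

noncomputable section

namespace LEP

/-! ## Planar geometry -/

/-- The open first quadrant. -/
def Qd : Set ℂ := {z | 0 < z.re ∧ 0 < z.im}

/-- Folding of the plane onto the closed first quadrant. -/
def fold (z : ℂ) : ℂ := ⟨|z.re|, |z.im|⟩

/-- `ψ = ρσ/r`. -/
def psi (z : ℂ) : ℝ := z.re * z.im / ‖z‖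

/-- `θ₀ = π/54`. -/
def th0 : ℝ := Real.pi / 54

/-- Full planar domain with radial profile `R` (a function of the angle in `[0, π/2]`). -/
def Udom (R : ℝ → ℝ) : Set ℂ := {z | ‖z‖ < R (Complex.arg (fold z))}

/-- Its part in the open quadrant. -/
def Ddom (R : ℝ → ℝ) : Set ℂ := Udom R ∩ Qd

/-- Admissible profiles. -/
structure Prof (R : ℝ → ℝ) : Prop where
  lsc : LowerSemicontinuous R
  one_le : ∀ t, 1 ≤ R t
  bdd : ∃ B, ∀ t, R t ≤ B
  near0 : ∀ t, t ≤ th0 → R t = 1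
  near1 : ∀ t, 26 * th0 ≤ t → R t = 1

/-- Exponents of the two arms: `3` and `9`. -/
def mm : Fin 2 → ℕ := ![3, 9]

/-- Initial angles of the two arms. -/
def al : Fin 2 → ℝ := ![th0, 20 * th0]

/-- Final angles of the two arms. -/
def be (i : Fin 2) : ℝ := al i + Real.pi / mm i

/-- The open sectors. -/
def Arm (i : Fin 2) : Set ℂ := {z | z ≠ 0 ∧ al i < Complex.arg z ∧ Complex.arg z < be i}

/-- Truncated sectors. -/
def ArmR (i : Fin 2) (ρ : ℝ) : Set ℂ := {z | z ∈ Arm i ∧ ‖z‖ < ρ}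

/-- The (discontinuous) sector profile. -/
def R0 (Rv : Fin 2 → ℝ) (t : ℝ) : ℝ :=
  if al 0 < t ∧ t < be 0 then Rv 0 else if al 1 < t ∧ t < be 1 then Rv 1 else 1

/-- The smooth profiles increasing to `R0`. -/
def Rn (Rv : Fin 2 → ℝ) (n : ℕ) (t : ℝ) : ℝ :=
  1 + (Rv 0 - 1) * Real.smoothTransition (n * (t - al 0)) * Real.smoothTransition (n * (be 0 - t))
    + (Rv 1 - 1) * Real.smoothTransition (n * (t - al 1)) * Real.smoothTransition (n * (be 1 - t))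

/-! ## Green functions -/

/-- `g` is the Green function of the open set `D` (extended by `0` outside `D × D` and on the
diagonal). -/
structure IsGreen (D : Set ℂ) (g : ℂ → ℂ → ℝ) : Prop where
  symm : ∀ x ∈ D, ∀ y ∈ D, g x y = g y x
  nonneg : ∀ x y, 0 ≤ g x y
  reg : ∃ h : ℂ → ℂ → ℝ, ContinuousOn (fun q : ℂ × ℂ => h q.1 q.2) (D ×ˢ D) ∧
    (∀ y ∈ D, HarmonicOnNhd (fun x => h x y) D) ∧
    ∀ x ∈ D, ∀ y ∈ D, x ≠ y → g x y = h x y - (1 / (2 * Real.pi)) * Real.log ‖x - y‖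
  bdry : ∀ K : Set ℂ, K ⊆ D → IsCompact K → ∀ ε : ℝ, 0 < ε →
    ∃ K' : Set ℂ, K' ⊆ D ∧ IsCompact K' ∧ ∀ y ∈ K, ∀ x ∈ D \ K', g x y < ε
  diag : ∀ x, g x x = 0
  off : ∀ x y, (x ∉ D ∨ y ∉ D) → g x y = 0

open Classical in
/-- The Green function of `D` (junk value `0` if there is none). -/
def gD (D : Set ℂ) : ℂ → ℂ → ℝ :=
  if h : ∃ g, IsGreen D g then Classical.choose h else fun _ _ => 0

/-- Odd-odd symmetrisation of a Green function of a symmetric domain. -/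
def gfold (G : ℂ → ℂ → ℝ) (x y : ℂ) : ℝ :=
  G x y - G x (starRingEnd ℂ y) - G x (-(starRingEnd ℂ y)) + G x (-y)

/-- Green function of the quadrant. -/
def GQ (x y : ℂ) : ℝ :=
  (1 / (4 * Real.pi)) * Real.log (1 + 4 * (x ^ 2).im * (y ^ 2).im / ‖x ^ 2 - y ^ 2‖ ^ 2)

/-- `x ↦ (e^{-iα} x)^m`, mapping the sector `Arm i` onto the upper half plane. -/
def pw (i : Fin 2) (x : ℂ) : ℂ := (Complex.exp (-(al i : ℂ) * Complex.I) * x) ^ (mm i)

/-- Green function of the infinite sector `Arm i`. -/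
def GA (i : Fin 2) (x y : ℂ) : ℝ :=
  (1 / (4 * Real.pi)) * Real.log (1 + 4 * (pw i x).im * (pw i y).im / ‖pw i x - pw i y‖ ^ 2)

/-- Green function of the truncated sector `ArmR i ρ` (off the diagonal). -/
def GAR (i : Fin 2) (ρ : ℝ) (x y : ℂ) : ℝ :=
  GA i x y - GA i x ((ρ : ℂ) ^ 2 / starRingEnd ℂ y)

/-- Point on the unit circle. -/
def ex (t : ℝ) : ℂ := Complex.exp (t * Complex.I)

/-- The scale invariant energy density of the infinite sector. -/
def gam (i : Fin 2) (t : ℝ) : ℝ := (∫ y in Arm i, (GA i (ex t) y) ^ 2) / (psi (ex t)) ^ 2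

/-- Its supremum. -/
def gs (i : Fin 2) : ℝ := sSup (gam i '' Ioo (al i) (be i))

/-- The Green operator of `D`. -/
def TD (D : Set ℂ) (f : ℂ → ℝ) (x : ℂ) : ℝ := ∫ y in D, gD D x y * f y

/-- The iterated kernel. -/
def Gam (D : Set ℂ) (x y : ℂ) : ℝ := ∫ z in D, gD D x z * gD D z y

/-- The normalised iterated kernel. -/
def Gt (D : Set ℂ) (x y : ℂ) : ℝ := Gam D x y / (psi x * psi y)

/-- Exponents with a small loss: `m - 1/200`. -/
def mp (i : Fin 2) : ℝ := (mm i : ℝ) - 1 / 200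

open Classical in
/-- Decay of the Green function as its second argument moves away. -/
def bb (y : ℂ) : ℝ :=
  if ‖y‖ < 8 then 1 else if y ∈ Arm 0 then ‖y‖ ^ (-mp 0) else if y ∈ Arm 1 then ‖y‖ ^ (-mp 1) else 1

/-! ## Two point energy and windows -/

/-- The energy of a `2 × 2` Gram matrix. -/
def cE (a b m : ℝ) : ℝ := (a + b + 2 * m) / (2 * (a * b - m ^ 2))

/-- The two point energy. -/
def cD (D : Set ℂ) (x1 x2 : ℂ) : ℝ := cE (Gt D x1 x1) (Gt D x2 x2) (Gt D x1 x2)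

/-- The two point profile `U(y) = m₁ Γ(y,x₁) - m₂ Γ(y,x₂)`. -/
def Up (D : Set ℂ) (x1 x2 y : ℂ) : ℝ :=
  ((Gt D x2 x2 + Gt D x1 x2) * Gt D y x1 - (Gt D x1 x1 + Gt D x1 x2) * Gt D y x2) /
    (Gt D x1 x1 * Gt D x2 x2 - Gt D x1 x2 ^ 2)

/-- Angular windows: `[a' i, b' i]` contains all angles where `gam i` exceeds half its sup. -/
structure AngData (a b a' b' : Fin 2 → ℝ) : Prop where
  h1 : ∀ i, al i < a i
  h2 : ∀ i, a i < a' i
  h3 : ∀ i, a' i < b' i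
  h4 : ∀ i, b' i < b i
  h5 : ∀ i, b i < be i
  half : ∀ i, ∀ t ∈ Ioo (al i) (be i), t ∉ Icc (a' i) (b' i) → gam i t ≤ gs i / 2

/-- The radial exponents of the peaks: `3` and `1`. -/
def ee : Fin 2 → ℝ := ![3, 1]

/-- Windows. -/
def Win (a b : Fin 2 → ℝ) (η L : ℝ) (i : Fin 2) : Set ℂ :=
  {z | Complex.arg z ∈ Icc (a i) (b i) ∧ L ^ (ee i - η) ≤ ‖z‖ ∧ ‖z‖ ≤ L ^ (ee i + η)}

/-- End radii of the arms: `L^7` and `L^2`. -/
def RL (L : ℝ) : Fin 2 → ℝ := ![L ^ (7 : ℝ), L ^ (2 : ℝ)]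

end LEP
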