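import Pool.Agent.Helper14.LE.Defs

/-!
# MP_08fe4e_an, planar disproof: exact statements of all modules

Every module `X` is a `Prop` called `ST_X`.  Prove `theorem st_X (inputs : ST_Y ...) : ST_X`.
Paper proofs: `/team-store/le_planar.md` (v2), section numbers in the doc strings.
`D` is a planar open set, `g` its Green function with pole `-(1/2π) log|x-y|`.
-/

open MeasureTheory Set Filter Topology InnerProductSpace Laplacian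

noncomputable section

namespace LEP

/-! ## Part 1: planar potential theory -/

/-- **MP** Maximum principle for harmonic functions, compact exhaustion form (no boundedness needed).
Proof: if `f x₀ > 0` take `K'` for `ε = f x₀ / 2`; the set where `f` attains its (positive) maximum is
compact, nonempty and open by the mean value property. -/
def ST_MP : Prop := ∀ (V : Set ℂ) (f : ℂ → ℝ), IsOpen V → HarmonicOnNhd f V →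
  (∀ ε : ℝ, 0 < ε → ∃ K : Set ℂ, K ⊆ V ∧ IsCompact K ∧ ∀ x ∈ V \ K, f x < ε) → ∀ x ∈ V, f x ≤ 0

/-- **MPB** Maximum principle, boundary form, bounded open set (from MP). -/
def ST_MPB : Prop := ∀ (V : Set ℂ) (f : ℂ → ℝ), IsOpen V → Bornology.IsBounded V →
  HarmonicOnNhd f V → (∀ ξ ∈ frontier V, ∀ ε : ℝ, 0 < ε → ∀ᶠ x in 𝓝[V] ξ, f x < ε) →
  ∀ x ∈ V, f x ≤ 0

/-- **RMT** Riemann mapping for bounded star-shaped domains. -/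
def ST_RMT : Prop := ∀ U : Set ℂ, IsOpen U → Bornology.IsBounded U → (0 : ℂ) ∈ U →
  StarConvex ℝ (0 : ℂ) U → ∃ φ : ℂ → ℂ, DifferentiableOn ℂ φ U ∧ InjOn φ U ∧
    φ '' U = Metric.ball 0 1 ∧ φ 0 = 0

/-- **GF1** Green function of bounded star-shaped domains (from RMT):
`g(x,y) = (1/2π) log |(1 - conj(φ y) φ x)/(φ x - φ y)|`. -/
def ST_GF1 : Prop := ∀ U : Set ℂ, IsOpen U → Bornology.IsBounded U → (0 : ℂ) ∈ U →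
  StarConvex ℝ (0 : ℂ) U → ∃ g, IsGreen U g

/-- **MONO** Monotonicity (hence uniqueness) of Green functions (MP applied to `h - h'`). -/
def ST_MONO : Prop := ∀ (D D' : Set ℂ) (g g' : ℂ → ℂ → ℝ), IsOpen D → IsOpen D' → D ⊆ D' →
  IsGreen D g → IsGreen D' g' → ∀ x y, g x y ≤ g' x y

/-- **CMP** Comparison with any nonnegative function having the same pole. -/
def ST_CMP : Prop := ∀ (D : Set ℂ) (g : ℂ → ℂ → ℝ) (y : ℂ) (k H : ℂ → ℝ), IsOpen D →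
  IsGreen D g → y ∈ D → HarmonicOnNhd H D →
  (∀ x ∈ D, x ≠ y → k x = H x - (1 / (2 * Real.pi)) * Real.log ‖x - y‖) →
  (∀ x ∈ D, x ≠ y → 0 ≤ k x) → ∀ x ∈ D, x ≠ y → g x y ≤ k x

/-- **GF2** Green function of the quarter domains: `gfold` of the Green function of `Udom R`. -/
def ST_GF2 : Prop := ∀ R, Prof R → IsGreen (Ddom R) (gD (Ddom R))

/-- **EXH** Exhaustion. -/
def ST_EXH : Prop := ∀ (D : ℕ → Set ℂ) (D0 : Set ℂ) (g : ℕ → ℂ → ℂ → ℝ) (g0 : ℂ → ℂ → ℝ),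
  (∀ n, IsOpen (D n)) → IsOpen D0 → Monotone D → (⋃ n, D n) = D0 →
  (∀ n, IsGreen (D n) (g n)) → IsGreen D0 g0 →
  ∀ x y, Tendsto (fun n => g n x y) atTop (𝓝 (g0 x y))

/-- **POS** Strict positivity (strong maximum principle; `Ddom R` is connected). -/
def ST_POS : Prop := ∀ R, Prof R → ∀ x ∈ Ddom R, ∀ y ∈ Ddom R, x ≠ y → 0 < gD (Ddom R) x y

/-- **MEAS** Joint measurability of Green functions, and continuity off the diagonal. -/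
def ST_MEAS : Prop := ∀ (D : Set ℂ) (g : ℂ → ℂ → ℝ), IsOpen D → IsGreen D g →
  Measurable (fun q : ℂ × ℂ => g q.1 q.2) ∧
  ContinuousOn (fun q : ℂ × ℂ => g q.1 q.2) {q | q.1 ∈ D ∧ q.2 ∈ D ∧ q.1 ≠ q.2}

/-- **GREP** Green representation of test functions. -/
def ST_GREP : Prop := ∀ (D : Set ℂ) (g : ℂ → ℂ → ℝ) (φ : ℂ → ℝ), IsOpen D → IsGreen D g →
  ContDiff ℝ 2 φ → HasCompactSupport φ → tsupport φ ⊆ D → ∀ y ∈ D,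
  IntegrableOn (fun x => g x y * (Δ φ) x) D ∧ φ y = - ∫ x in D, g x y * (Δ φ) x

/-- **GEO** Elementary geometry of the domains. -/
def ST_GEO : Prop :=
  (∀ R, Prof R → IsOpen (Udom R) ∧ IsOpen (Ddom R) ∧ Bornology.IsBounded (Udom R) ∧
    (0 : ℂ) ∈ Udom R ∧ StarConvex ℝ (0 : ℂ) (Udom R) ∧ IsPreconnected (Ddom R) ∧
    (∀ z, z ∈ Udom R → starRingEnd ℂ z ∈ Udom R ∧ -z ∈ Udom R)) ∧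
  (∀ Rv : Fin 2 → ℝ, (∀ i, 1 ≤ Rv i) → Prof (R0 Rv) ∧ (∀ n, Prof (Rn Rv n)) ∧
    (∀ n t, Rn Rv n t ≤ R0 Rv t) ∧ (Monotone fun n : ℕ => Ddom (Rn Rv n)) ∧
    (⋃ n : ℕ, Ddom (Rn Rv n)) = Ddom (R0 Rv) ∧ (∀ i, ArmR i (Rv i) ⊆ Ddom (R0 Rv)) ∧
    (∀ y ∈ Ddom (R0 Rv), 1 ≤ ‖y‖ → ∃ i, y ∈ ArmR i (Rv i)) ∧
    (∀ K ⊆ Ddom (R0 Rv), IsCompact K → ∀ᶠ k : ℕ in atTop, K ⊆ Ddom (Rn Rv k)))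

/-! ## Part 2: the quadrant kernel -/

/-- **GQ1** pointwise: nonnegativity, symmetry, bounds (i), (ii), (iii), and `g ≤ GQ`. -/
def ST_GQ1 : Prop :=
  (∀ x ∈ Qd, ∀ y ∈ Qd, 0 ≤ GQ x y ∧ GQ x y = GQ y x) ∧
  (∀ R : ℝ, ∀ x ∈ Qd, ∀ y ∈ Qd, ‖x‖ ≤ R → ‖y‖ ≤ R → x ≠ y →
    GQ x y ≤ (1 / (2 * Real.pi)) * Real.log (4 * R / ‖x - y‖)) ∧
  (∀ x ∈ Qd, ∀ y ∈ Qd, x ≠ y → GQ x y ≤ (2 / Real.pi) * (psi x / ‖x - y‖)) ∧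
  (∀ x ∈ Qd, ∀ y ∈ Qd, 2 * ‖x‖ ≤ ‖y‖ → GQ x y ≤ 2 * ‖x‖ * psi x / ‖y‖ ^ 2) ∧
  (∀ (D : Set ℂ) (g : ℂ → ℂ → ℝ), IsOpen D → D ⊆ Qd → IsGreen D g →
    ∀ x ∈ D, ∀ y ∈ D, g x y ≤ GQ x y)

/-- **GQ2** integral bounds (iv), (v), (vi). -/
def ST_GQ2 : Prop :=
  (∃ C : ℝ, 0 < C ∧ ∀ x ∈ Qd, IntegrableOn (fun y => (GQ x y) ^ ((4 : ℝ) / 3)) Qd ∧
    ∫ y in Qd, (GQ x y) ^ ((4 : ℝ) / 3) ≤ C * (psi x) ^ ((4 : ℝ) / 3) * ‖x‖ ^ ((2 : ℝ) / 3)) ∧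
  (∃ C : ℝ, 0 < C ∧ ∀ R : ℝ, ∀ x ∈ Qd, ‖x‖ < R →
    IntegrableOn (fun y => GQ x y * (y ^ 2).im) (Qd ∩ Metric.ball 0 R) ∧
    ∫ y in Qd ∩ Metric.ball 0 R, GQ x y * (y ^ 2).im ≤ C * R ^ 2 * (x ^ 2).im) ∧
  (∀ R : ℝ, 0 < R → ∃ C : ℝ, 0 < C ∧ ∀ x ∈ Qd, ‖x‖ < R →
    IntegrableOn (fun y => (GQ x y) ^ 8) (Qd ∩ Metric.ball 0 R) ∧
    ∫ y in Qd ∩ Metric.ball 0 R, (GQ x y) ^ 8 ≤ C) ∧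
  (∀ R : ℝ, 0 < R → ∃ C : ℝ, 0 < C ∧ ∀ x ∈ Qd, ‖x‖ < R →
    IntegrableOn (fun y => (GQ x y) ^ 2) (Qd ∩ Metric.ball 0 R) ∧
    ∫ y in Qd ∩ Metric.ball 0 R, (GQ x y) ^ 2 ≤ C * (psi x) ^ ((4 : ℝ) / 3))

/-! ## Part 3: the Green operator -/

/-- **T1** (i): `|T f(x)| ≤ C ψ(x) |x|^{1/2} ‖f‖_{L⁴(D)}` (Hölder and GQ (iv)). -/
def ST_T1 : Prop := ∃ C : ℝ, 0 < C ∧ ∀ R, Prof R → ∀ f : ℂ → ℝ,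
  AEStronglyMeasurable f (volume.restrict (Ddom R)) →
  IntegrableOn (fun y => (f y) ^ 4) (Ddom R) → ∀ x ∈ Ddom R,
  IntegrableOn (fun y => gD (Ddom R) x y * f y) (Ddom R) ∧
  |TD (Ddom R) f x| ≤ C * psi x * ‖x‖ ^ ((1 : ℝ) / 2) *
    (∫ y in Ddom R, (f y) ^ 4) ^ ((1 : ℝ) / 4)

/-- **T4** (iv): `|f| ≤ Im y²` implies `|T f| ≤ C Im x²`. -/
def ST_T4 : Prop := ∀ B : ℝ, ∃ C : ℝ, 0 < C ∧ ∀ R, Prof R → (∀ t, R t ≤ B) → ∀ f : ℂ → ℝ,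
  AEStronglyMeasurable f (volume.restrict (Ddom R)) → (∀ y ∈ Ddom R, |f y| ≤ (y ^ 2).im) →
  ∀ x ∈ Ddom R, |TD (Ddom R) f x| ≤ C * (x ^ 2).im

/-- **T2** (ii): the kernels `g(x,·)` are in `L²(D)` and `L⁸(D)`, `x ↦ g(x,·)` is continuous into
`L²(D)`; basic properties of `Gam`. -/
def ST_T2 : Prop := ∀ R, Prof R →
  (∀ x ∈ Ddom R, IntegrableOn (fun z => (gD (Ddom R) x z) ^ 2) (Ddom R)) ∧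
  (∃ C : ℝ, ∀ x ∈ Ddom R, IntegrableOn (fun z => (gD (Ddom R) x z) ^ 8) (Ddom R) ∧
    ∫ z in Ddom R, (gD (Ddom R) x z) ^ 8 ≤ C) ∧
  (∀ x ∈ Ddom R, ∀ y ∈ Ddom R, IntegrableOn (fun z => gD (Ddom R) x z * gD (Ddom R) z y) (Ddom R)) ∧
  (∀ x ∈ Ddom R, Tendsto (fun x' => ∫ z in Ddom R, (gD (Ddom R) x' z - gD (Ddom R) x z) ^ 2)
    (𝓝[Ddom R] x) (𝓝 0)) ∧
  (∀ x ∈ Ddom R, ∀ y ∈ Ddom R, 0 ≤ Gam (Ddom R) x y ∧ Gam (Ddom R) x y = Gam (Ddom R) y x ∧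
    Gam (Ddom R) x y ^ 2 ≤ Gam (Ddom R) x x * Gam (Ddom R) y y) ∧
  (∀ x ∈ Ddom R, Gam (Ddom R) x x = ∫ z in Ddom R, (gD (Ddom R) x z) ^ 2) ∧
  ContinuousOn (fun q : ℂ × ℂ => Gam (Ddom R) q.1 q.2) (Ddom R ×ˢ Ddom R)

/-- **TM** monotonicity of `Gam` and convergence along an exhaustion. -/
def ST_TM : Prop :=
  (∀ R R', Prof R → Prof R' → (∀ t, R t ≤ R' t) → ∀ x ∈ Ddom R, ∀ y ∈ Ddom R,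
    Gam (Ddom R) x y ≤ Gam (Ddom R') x y) ∧
  (∀ Rv : Fin 2 → ℝ, (∀ i, 1 ≤ Rv i) → ∀ x ∈ Ddom (R0 Rv), ∀ y ∈ Ddom (R0 Rv),
    Tendsto (fun n => Gam (Ddom (Rn Rv n)) x y) atTop (𝓝 (Gam (Ddom (R0 Rv)) x y)))

/-- **T3** (iii): for `f ∈ L⁴`, `T f` is continuous on `D` and vanishes at the boundary. -/
def ST_T3 : Prop := ∀ R, Prof R → ∀ f : ℂ → ℝ,
  AEStronglyMeasurable f (volume.restrict (Ddom R)) → IntegrableOn (fun y => (f y) ^ 4) (Ddom R) →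
  ContinuousOn (TD (Ddom R) f) (Ddom R) ∧
  ∀ ε : ℝ, 0 < ε → ∃ K ⊆ Ddom R, IsCompact K ∧ ∀ x ∈ Ddom R \ K, |TD (Ddom R) f x| < ε

/-- **T5** (v): the corners `1` and `i` (Joukowski barrier). -/
def ST_T5 : Prop := ∀ R, Prof R → ∀ f : ℂ → ℝ,
  AEStronglyMeasurable f (volume.restrict (Ddom R)) →
  (∃ C : ℝ, ∀ y ∈ Ddom R, |f y| ≤ C * (y ^ 2).im) →
  Tendsto (fun x => TD (Ddom R) f x / (x ^ 2).im) (𝓝[Ddom R] 1) (𝓝 0) ∧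
  Tendsto (fun x => TD (Ddom R) f x / (x ^ 2).im) (𝓝[Ddom R] Complex.I) (𝓝 0)

/-! ## Part 4: sector kernels (elementary) -/

/-- **SEC0** basic facts on the sector kernels. -/
def ST_SEC0 : Prop :=
  (∀ i, ∀ x ∈ Arm i, x ∈ Qd ∧ ‖x‖ / 20 ≤ psi x ∧ psi x ≤ ‖x‖ / 2) ∧
  (∀ i, ∀ x ∈ Arm i, 0 < (pw i x).im ∧ ‖pw i x‖ = ‖x‖ ^ mm i ∧
    (pw i x).im = ‖x‖ ^ mm i * Real.sin (mm i * (Complex.arg x - al i))) ∧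
  (∀ i, ∀ x ∈ Arm i, ∀ y ∈ Arm i, 0 ≤ GA i x y ∧ GA i x y = GA i y x) ∧
  (∀ i, ∀ t : ℝ, 0 < t → ∀ x y, GA i (t * x) (t * y) = GA i x y) ∧
  (∀ i, ∀ t : ℝ, 0 < t → ∀ x ∈ Arm i, (t : ℂ) * x ∈ Arm i) ∧
  (∀ i, ∀ ρ : ℝ, 0 < ρ → ∀ x ∈ ArmR i ρ, ∀ y ∈ ArmR i ρ, x ≠ y →
    0 ≤ GAR i ρ x y ∧ GAR i ρ x y ≤ GA i x y) ∧
  (∃ C : ℝ, 0 < C ∧ ∀ i, ∀ x ∈ Arm i, ∀ y ∈ Arm i, 2 * ‖y‖ ≤ ‖x‖ →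
    GA i x y ≤ C * (‖y‖ / ‖x‖) ^ mm i)

open Classical in
/-- **SECG** `GAR` is the Green function of the truncated sector. -/
def ST_SECG : Prop := ∀ i, ∀ ρ : ℝ, 0 < ρ → IsGreen (ArmR i ρ)
  (fun x y => if x ∈ ArmR i ρ ∧ y ∈ ArmR i ρ ∧ x ≠ y then GAR i ρ x y else 0)

/-- **S1** the scale invariant density `gam`: integrability, bounds, and angular data. -/
def ST_S1 : Prop :=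
  (∀ i, ∀ x ∈ Arm i, IntegrableOn (fun y => (GA i x y) ^ 2) (Arm i) ∧
    (∫ y in Arm i, (GA i x y) ^ 2) = gam i (Complex.arg x) * psi x ^ 2) ∧
  (∀ i, BddAbove (gam i '' Ioo (al i) (be i))) ∧
  (∀ i, 0 < gs i) ∧
  (∀ i, ∀ a b : ℝ, al i < a → b < be i → ∃ c : ℝ, 0 < c ∧ ∀ t ∈ Icc a b, c ≤ gam i t) ∧
  (∃ a b a' b' : Fin 2 → ℝ, AngData a b a' b')

/-- **S2** -/
def ST_S2 : Prop :=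
  (∃ C : ℝ, 0 < C ∧ ∀ i, ∀ x ∈ Arm i,
    IntegrableOn (fun y => GA i x y * ‖y‖ ^ (-mp i)) (Arm i) ∧
    ∫ y in Arm i, GA i x y * ‖y‖ ^ (-mp i) ≤ C * ‖x‖ ^ (2 - mp i)) ∧
  (∃ C : ℝ, 0 < C ∧ ∀ i, ∀ x ∈ Arm i, ∀ R : ℝ, 0 < R →
    IntegrableOn (fun y => GA i x y * ‖y‖ ^ mm i) (ArmR i R) ∧
    ∫ y in ArmR i R, GA i x y * ‖y‖ ^ mm i ≤ C * ‖x‖ ^ mm i * (‖x‖ ^ 2 + R ^ 2))

/-- **S3** tails of `∫ GA²`. -/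
def ST_S3 : Prop :=
  (∃ C : ℝ, 0 < C ∧ ∀ i, ∀ x ∈ Arm i, ∀ R : ℝ, 2 * ‖x‖ ≤ R →
    ∫ y in Arm i \ ArmR i R, (GA i x y) ^ 2 ≤ C * ‖x‖ ^ 2 * (‖x‖ / R) ^ (2 * mm i - 2)) ∧
  (∀ i, ∀ a b : ℝ, al i < a → b < be i → ∃ c : ℝ, 0 < c ∧ ∀ x, x ≠ 0 →
    Complex.arg x ∈ Icc a b → ∀ R : ℝ, 2 * ‖x‖ ≤ R →
    c * ‖x‖ ^ 2 * (‖x‖ / R) ^ (2 * mm i - 2) ≤ ∫ y in Arm i \ ArmR i R, (GA i x y) ^ 2)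

/-- **S4** truncation. -/
def ST_S4 : Prop := ∃ C : ℝ, 0 < C ∧ ∀ i, ∀ x ∈ Arm i, ∀ R : ℝ, 2 * ‖x‖ ≤ R →
  IntegrableOn (fun y => (GAR i R x y) ^ 2) (ArmR i R) ∧
  (∫ y in Arm i, (GA i x y) ^ 2) - C * ‖x‖ ^ 2 * (‖x‖ / R) ^ (2 * mm i - 2) ≤
    ∫ y in ArmR i R, (GAR i R x y) ^ 2

/-- **S5** lower bound towards a fixed point `b` with `|b| = 8`. -/
def ST_S5 : Prop := ∃ c : ℝ, 0 < c ∧ ∀ i, ∀ b ∈ Arm i, ‖b‖ = 8 → ∀ x ∈ Arm i, 16 ≤ ‖x‖ →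
  ∀ R : ℝ, 4 * ‖x‖ ≤ R → c * (pw i x).im * (pw i b).im / ‖x‖ ^ (2 * mm i) ≤ GAR i R x b

/-- **S6** the iterated kernel of the infinite sector. -/
def ST_S6 : Prop := ∃ C : ℝ, 0 < C ∧ ∀ i, ∀ x ∈ Arm i, ∀ y ∈ Arm i, ‖y‖ ≤ ‖x‖ →
  IntegrableOn (fun z => GA i x z * GA i z y) (Arm i) ∧
  ∫ z in Arm i, GA i x z * GA i z y ≤ C * ‖x‖ ^ 2 * (‖y‖ / ‖x‖) ^ mm i

/-- **S7** lower bound near the diagonal. -/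
def ST_S7 : Prop := ∀ i, ∀ a b : ℝ, al i < a → b < be i → ∃ c : ℝ, 0 < c ∧ c ≤ 1 / 2 ∧
  ∀ x, x ≠ 0 → Complex.arg x ∈ Icc a b → ∀ R : ℝ, 8 * ‖x‖ ≤ R → ∀ y, y ≠ x → ‖y - x‖ ≤ c * ‖x‖ →
    y ∈ ArmR i R ∧ c ≤ GAR i R x y ∧ c * ‖x‖ ^ mm i ≤ (pw i y).im

/-! ## Part 5: the arms of `D₀` -/

/-- **U1** -/
def ST_U1 : Prop := ∃ C : ℝ, 0 < C ∧ ∀ Rv : Fin 2 → ℝ, (∀ i, 16 ≤ Rv i) → ∀ i,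
  ∀ x ∈ Ddom (R0 Rv), ∀ y ∈ Ddom (R0 Rv), x ∈ Arm i → 4 ≤ ‖x‖ → (y ∉ Arm i ∨ ‖y‖ ≤ 2) →
  gD (Ddom (R0 Rv)) x y ≤ C * ‖x‖ ^ (-mp i) * bb y

/-- **U2** -/
def ST_U2 : Prop := ∃ C : ℝ, 0 < C ∧ ∀ Rv : Fin 2 → ℝ, (∀ i, 16 ≤ Rv i) → ∀ i,
  ∀ x ∈ ArmR i (Rv i), ∀ y ∈ ArmR i (Rv i), x ≠ y →
  GAR i (Rv i) x y ≤ gD (Ddom (R0 Rv)) x y ∧
  (4 ≤ ‖x‖ → gD (Ddom (R0 Rv)) x y ≤ GAR i (Rv i) x y + C * ‖x‖ ^ (-mp i) * bb y)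

/-- **U3** -/
def ST_U3 : Prop := ∃ C : ℝ, 0 < C ∧ ∀ Rv : Fin 2 → ℝ, (∀ i, 16 ≤ Rv i) → ∀ j,
  ∀ y ∈ Ddom (R0 Rv), ∀ z ∈ Ddom (R0 Rv), ‖y‖ ≤ 4 → z ∈ Arm j → 8 ≤ ‖z‖ →
  gD (Ddom (R0 Rv)) y z ≤ C * ‖y‖ * psi y * ‖z‖ ^ (-mp j)

/-- `R` is an admissible profile below the sector profile. -/
def Sub (Rv : Fin 2 → ℝ) (R : ℝ → ℝ) : Prop := (∀ i, 16 ≤ Rv i) ∧ Prof R ∧ ∀ t, R t ≤ R0 Rv t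

/-- **E1** upper bounds of the diagonal. -/
def ST_E1 : Prop :=
  (∃ C : ℝ, 0 < C ∧ ∀ Rv R, Sub Rv R → ∀ i, ∀ x ∈ Ddom R, x ∈ Arm i → 4 ≤ ‖x‖ →
    Gt (Ddom R) x x ≤ gam i (Complex.arg x) + C * ‖x‖ ^ (-2 * mp i)) ∧
  (∀ i, ∀ a b : ℝ, al i < a → b < be i → ∃ c C : ℝ, 0 < c ∧ 0 < C ∧ ∀ Rv R, Sub Rv R →
    ∀ x ∈ Ddom R, Complex.arg x ∈ Icc a b → 4 ≤ ‖x‖ → 2 * ‖x‖ ≤ Rv i →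
    Gt (Ddom R) x x ≤ gam i (Complex.arg x) - c * (‖x‖ / Rv i) ^ (2 * mm i - 2) +
      C * ‖x‖ ^ (-2 * mp i))

/-- **E2** lower bound of the diagonal. -/
def ST_E2 : Prop := ∃ C : ℝ, 0 < C ∧ ∀ Rv : Fin 2 → ℝ, (∀ i, 16 ≤ Rv i) → ∀ i, ∀ x ∈ Arm i,
  2 * ‖x‖ ≤ Rv i →
  gam i (Complex.arg x) - C * (‖x‖ / Rv i) ^ (2 * mm i - 2) ≤ Gt (Ddom (R0 Rv)) x x

/-- **E3A** lower bound of the Green function between the arms. -/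
def ST_E3A : Prop := ∃ b0 ∈ Arm 0, ∃ b1 ∈ Arm 1, ‖b0‖ = 8 ∧ ‖b1‖ = 8 ∧ ∃ c : ℝ, 0 < c ∧
  ∀ Rv : Fin 2 → ℝ, (∀ i, 16 ≤ Rv i) →
  ∀ y ∈ ArmR 0 (Rv 0), ∀ z ∈ ArmR 1 (Rv 1), 16 ≤ ‖y‖ → 16 ≤ ‖z‖ →
  c * GAR 0 (Rv 0) y b0 * GAR 1 (Rv 1) z b1 ≤ gD (Ddom (R0 Rv)) y z

/-- **E3** lower bound of the cross term. -/
def ST_E3 : Prop := ∀ a b : Fin 2 → ℝ, (∀ i, al i < a i) → (∀ i, b i < be i) →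
  ∃ c : ℝ, 0 < c ∧ ∀ Rv : Fin 2 → ℝ, (∀ i, 16 ≤ Rv i) → ∀ x1 x2 : ℂ,
  Complex.arg x1 ∈ Icc (a 0) (b 0) → Complex.arg x2 ∈ Icc (a 1) (b 1) → 32 ≤ ‖x1‖ → 32 ≤ ‖x2‖ →
  8 * ‖x1‖ ≤ Rv 0 → 8 * ‖x2‖ ≤ Rv 1 →
  c / (‖x1‖ ^ 2 * ‖x2‖ ^ 10) ≤ Gt (Ddom (R0 Rv)) x1 x2

/-- **E4** upper bound of the cross term. -/
def ST_E4 : Prop := ∃ C : ℝ, 0 < C ∧ ∀ Rv R, Sub Rv R → ∀ x1 ∈ Ddom R, ∀ x2 ∈ Ddom R,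
  x1 ∈ Arm 0 → x2 ∈ Arm 1 → 4 ≤ ‖x1‖ → 4 ≤ ‖x2‖ →
  Gam (Ddom R) x1 x2 ≤ C * (‖x1‖ ^ (2 - mp 0) * ‖x2‖ ^ (-mp 1) + ‖x1‖ ^ (-mp 0) * ‖x2‖ ^ (2 - mp 1))

/-- **E5** the core. -/
def ST_E5 : Prop := ∃ C : ℝ, 0 < C ∧ ∀ Rv R, Sub Rv R → ∀ i, ∀ y ∈ Ddom R, ∀ x ∈ Ddom R,
  ‖y‖ ≤ 4 → x ∈ Arm i → 16 ≤ ‖x‖ →
  Gam (Ddom R) y x ≤ C * psi y * ‖y‖ ^ ((1 : ℝ) / 2) * ‖x‖ ^ (2 - mp i)

/-- **E6** the same arm. -/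
def ST_E6 : Prop := ∃ C : ℝ, 0 < C ∧ ∀ Rv R, Sub Rv R → ∀ i, ∀ x ∈ Ddom R, ∀ y ∈ Ddom R,
  x ∈ Arm i → y ∈ Arm i → 4 ≤ ‖y‖ → ‖y‖ ≤ ‖x‖ →
  Gam (Ddom R) x y ≤ C * (‖x‖ ^ 2 * (‖y‖ / ‖x‖) ^ mm i +
    ‖x‖ ^ (-mp i) * ‖y‖ ^ (2 - mp i) + ‖y‖ ^ (-mp i) * ‖x‖ ^ (2 - mp i))

/-! ## Part 6: windows -/

/-- Outer windows. -/
def Wo (a b : Fin 2 → ℝ) (L : ℝ) (i : Fin 2) : Set ℂ := Win a b (1 / 10) L i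

/-- Inner windows (to be used with `a' b'`). -/
def Wi (a' b' : Fin 2 → ℝ) (L : ℝ) (i : Fin 2) : Set ℂ := Win a' b' (1 / 20) L i

/-- The half sum of the inverse suprema. -/
def csum : ℝ := (1 / gs 0 + 1 / gs 1) / 2

/-- **W1** windows for `D₀`, with a uniform gap. -/
def ST_W1 : Prop := ∀ a b a' b', AngData a b a' b' → ∀ ε : ℝ, 0 < ε → ∀ᶠ L : ℝ in atTop,
  (∀ i, Wo a b L i ⊆ Ddom (R0 (RL L))) ∧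
  (∀ x1 ∈ Wo a b L 0, ∀ x2 ∈ Wo a b L 1,
    Gt (Ddom (R0 (RL L))) x1 x2 ^ 2 <
      Gt (Ddom (R0 (RL L))) x1 x1 * Gt (Ddom (R0 (RL L))) x2 x2) ∧
  ∃ x1 ∈ Wi a' b' L 0, ∃ x2 ∈ Wi a' b' L 1,
    cD (Ddom (R0 (RL L))) x1 x2 ≤ csum + ε ∧
    ∃ δ : ℝ, 0 < δ ∧ ∀ y1 ∈ Wo a b L 0, ∀ y2 ∈ Wo a b L 1,
      (y1 ∉ Wi a' b' L 0 ∨ y2 ∉ Wi a' b' L 1) →
      cD (Ddom (R0 (RL L))) x1 x2 + δ ≤ cD (Ddom (R0 (RL L))) y1 y2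

/-- **W2** windows for the smooth domains `D_n`, `n` large. -/
def ST_W2 : Prop := ∀ a b a' b', AngData a b a' b' → ∀ ε : ℝ, 0 < ε → ∀ᶠ L : ℝ in atTop,
  ∀ᶠ n : ℕ in atTop,
  (∀ i, Wo a b L i ⊆ Ddom (Rn (RL L) n)) ∧
  (∀ x1 ∈ Wo a b L 0, ∀ x2 ∈ Wo a b L 1,
    Gt (Ddom (Rn (RL L) n)) x1 x2 ^ 2 <
      Gt (Ddom (Rn (RL L) n)) x1 x1 * Gt (Ddom (Rn (RL L) n)) x2 x2) ∧
  ∃ x1 ∈ Wi a' b' L 0, ∃ x2 ∈ Wi a' b' L 1,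
    cD (Ddom (Rn (RL L) n)) x1 x2 ≤ csum + ε ∧
    ∀ y1 ∈ Wo a b L 0, ∀ y2 ∈ Wo a b L 1, (y1 ∉ Wi a' b' L 0 ∨ y2 ∉ Wi a' b' L 1) →
      cD (Ddom (Rn (RL L) n)) x1 x2 < cD (Ddom (Rn (RL L) n)) y1 y2

/-- **W3** the two point profiles are small outside the windows. -/
def ST_W3 : Prop := ∀ a b a' b', AngData a b a' b' → ∃ ε : ℝ, 0 < ε ∧ ∀ᶠ L : ℝ in atTop,
  ∀ᶠ n : ℕ in atTop,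
  ∀ x1 ∈ Wi a' b' L 0, ∀ x2 ∈ Wi a' b' L 1, cD (Ddom (Rn (RL L) n)) x1 x2 ≤ csum + ε →
  (∀ y ∈ Ddom (Rn (RL L) n), 4 ≤ ‖y‖ → y ∉ Wo a b L 0 → y ∉ Wo a b L 1 →
    |Up (Ddom (Rn (RL L) n)) x1 x2 y| ≤ 9 / 10) ∧
  (∀ y ∈ Ddom (Rn (RL L) n), ‖y‖ ≤ 4 →
    |Up (Ddom (Rn (RL L) n)) x1 x2 y| ≤ ‖y‖ ^ ((1 : ℝ) / 2) / 4) ∧
  (∀ y ∈ Wo a b L 0, -(1 / 2) ≤ Up (Ddom (Rn (RL L) n)) x1 x2 y) ∧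
  (∀ y ∈ Wo a b L 1, Up (Ddom (Rn (RL L) n)) x1 x2 y ≤ 1 / 2)

end LEP
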