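import Pool.Agent.Helper14.LE.Stmts

/-!
# MP_08fe4e_an, planar disproof: exact statements, second part

Abstract existence theorem (A1-A6, ABS, TWO), application (KAP, ABSD, MMI, PLANAR), regularity
(POT, FUND2, FUND6, WREG, WEAK2, REG2), lifting to `ℝ⁶` (LIFT, CUT, DOM, BDY, FINAL).
-/

open MeasureTheory Set Filter Topology InnerProductSpace Laplacian

noncomputable section

namespace LEP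

/-! ## Part 7: abstract existence theorem -/

section Abs

variable {H : Type} [NormedAddCommGroup H] [InnerProductSpace ℝ H]
variable {X : Type} [MeasurableSpace X]

/-- Feasible set of the limit problem. -/
def feas (κ : X → H) (W1 W2 : Set X) : Set H :=
  {v | (∃ x ∈ W1, 1 ≤ ⟪κ x, v⟫_ℝ) ∧ (∃ x ∈ W2, ⟪κ x, v⟫_ℝ ≤ -1)}

/-- Its elements of minimal norm. -/
def MM (κ : X → H) (W1 W2 : Set X) : Set H :=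
  {v | v ∈ feas κ W1 W2 ∧ ∀ w ∈ feas κ W1 W2, ‖v‖ ≤ ‖w‖}

open Classical in
/-- The truncated nonlinearity `g_p`. -/
def gp (W1 W2 : Set X) (τ : X → ℝ) (p : ℕ) (y : X) (t : ℝ) : ℝ :=
  if y ∈ W1 then (max t (-τ y)) ^ p else if y ∈ W2 then (min t (τ y)) ^ p
  else (max (-τ y) (min t (τ y))) ^ p

open Classical in
/-- The outer part of `g_p`. -/
def gout (W1 W2 : Set X) (τ : X → ℝ) (p : ℕ) (y : X) (t : ℝ) : ℝ :=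
  if y ∈ W1 then (max (min t 0) (-τ y)) ^ p else if y ∈ W2 then (min (max t 0) (τ y)) ^ p
  else (max (-τ y) (min t (τ y))) ^ p

/-- The outer operator. -/
def Bf (lam : Measure X) (κ : X → H) (W1 W2 : Set X) (τ : X → ℝ) (p : ℕ) (v : H) : H :=
  ∫ y, gout W1 W2 τ p y ⟪κ y, v⟫_ℝ • κ y ∂lam

/-- The sublinear functionals `N_i`. -/
def Nf (lam : Measure X) (κ : X → H) (W : Set X) (p : ℕ) (h : H) : ℝ :=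
  (∫ y in W, (max ⟪κ y, h⟫_ℝ 0) ^ (p + 1) ∂lam) ^ ((1 : ℝ) / (p + 1))

/-- The convex sets `K_i`. -/
def Kf (lam : Measure X) (κ : X → H) (W : Set X) (p : ℕ) : Set H :=
  {k | ∀ h, ⟪k, h⟫_ℝ ≤ Nf lam κ W p h}

/-- Data of the abstract theorem. -/
structure AbsData [TopologicalSpace X] (lam : Measure X) (κ : X → H) (W1 W2 : Set X)
    (τ : X → ℝ) : Prop where
  sm : StronglyMeasurable κ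
  m1 : MeasurableSet W1
  m2 : MeasurableSet W2
  c1 : IsCompact W1
  c2 : IsCompact W2
  n1 : W1.Nonempty
  n2 : W2.Nonempty
  disj : Disjoint W1 W2
  k1 : ContinuousOn κ W1
  k2 : ContinuousOn κ W2
  f1 : lam W1 < ⊤
  f2 : lam W2 < ⊤
  p1 : ∀ U, IsOpen U → (U ∩ W1).Nonempty → 0 < lam (U ∩ W1)
  p2 : ∀ U, IsOpen U → (U ∩ W2).Nonempty → 0 < lam (U ∩ W2)
  cross : ∀ x ∈ W1, ∀ y ∈ W2, 0 ≤ ⟪κ x, κ y⟫_ℝ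
  h1 : ∃ h : H, (∀ x ∈ W1, ⟪κ x, h⟫_ℝ = 1) ∧ ∀ x ∈ W2, ⟪κ x, h⟫_ℝ = 0
  h2 : ∃ h : H, (∀ x ∈ W1, ⟪κ x, h⟫_ℝ = 0) ∧ ∀ x ∈ W2, ⟪κ x, h⟫_ℝ = 1
  tm : Measurable τ
  t0 : ∀ x, 0 ≤ τ x
  t1 : ∃ t : ℝ, t < 1 ∧ ∀ x, τ x ≤ t
  ti : ∃ q : ℕ, Integrable (fun x => τ x ^ q * (1 + ‖κ x‖ + ‖κ x‖ ^ 2)) lam

end Abs

/-- **A1** the sets `K_i` (V1, V2).  Contained in `2 • closedConvexHull ({0} ∪ κ(W))` by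
Hahn-Banach once `lam(W)^{1/(p+1)} ≤ 2`. -/
def ST_A1 : Prop := ∀ (H : Type) [NormedAddCommGroup H] [InnerProductSpace ℝ H] [CompleteSpace H]
  (X : Type) [TopologicalSpace X] [MeasurableSpace X] [BorelSpace X] (lam : Measure X) (κ : X → H)
  (W : Set X) (c : ℝ), MeasurableSet W → IsCompact W → W.Nonempty → ContinuousOn κ W →
  lam W < ⊤ → (∀ x ∈ W, ‖κ x‖ ≤ c) → ∀ᶠ p : ℕ in atTop,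
  Convex ℝ (Kf lam κ W p) ∧ IsCompact (Kf lam κ W p) ∧ (0 : H) ∈ Kf lam κ W p ∧
  (∀ k ∈ Kf lam κ W p, ‖k‖ ≤ 2 * c) ∧
  (∀ k ∈ Kf lam κ W p, ∀ h : H, (∀ x ∈ W, ⟪κ x, h⟫_ℝ = 0) → ⟪k, h⟫_ℝ = 0) ∧
  (∀ k ∈ Kf lam κ W p, ∀ h : H, (∀ x ∈ W, 0 ≤ ⟪κ x, h⟫_ℝ) → 0 ≤ ⟪k, h⟫_ℝ) ∧
  (∀ k ∈ Kf lam κ W p, ∀ h : H, (∀ x ∈ W, ⟪κ x, h⟫_ℝ = 1) → ‖k‖ ≤ c * ⟪k, h⟫_ℝ)

/-- **A2** the outer part (V3): `V - B(V) = h`, and the convex function `E* = Es`. -/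
def ST_A2 : Prop := ∀ (H : Type) [NormedAddCommGroup H] [InnerProductSpace ℝ H] [CompleteSpace H]
  (X : Type) [MeasurableSpace X] (lam : Measure X) (κ : X → H) (W1 W2 : Set X) (τ : X → ℝ),
  StronglyMeasurable κ → MeasurableSet W1 → MeasurableSet W2 → Measurable τ → (∀ x, 0 ≤ τ x) →
  (∃ t : ℝ, t < 1 ∧ ∀ x, τ x ≤ t) →
  (∃ q : ℕ, Integrable (fun x => τ x ^ q * (1 + ‖κ x‖ + ‖κ x‖ ^ 2)) lam) →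
  ∀ η : ℝ, 0 < η → ∀ᶠ p : ℕ in atTop, Odd p →
  (∀ v : H, Integrable (fun y => gout W1 W2 τ p y ⟪κ y, v⟫_ℝ • κ y) lam) ∧
  (∀ v : H, Integrable (fun y => gout W1 W2 τ p y ⟪κ y, v⟫_ℝ) lam ∧
    ∫ y, |gout W1 W2 τ p y ⟪κ y, v⟫_ℝ| ∂lam ≤ η) ∧
  ∃ (V : H → H) (Es : H → ℝ), (∀ h, V h - Bf lam κ W1 W2 τ p (V h) = h) ∧ (∀ h, ‖V h - h‖ ≤ η) ∧
    Continuous V ∧ (∀ h h', ‖h - h'‖ ^ 2 / 4 ≤ ⟪V h - V h', h - h'⟫_ℝ) ∧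
    (∀ h h', Es h + ⟪V h, h' - h⟫_ℝ ≤ Es h') ∧
    (∀ h, ‖h‖ ^ 2 / 2 ≤ Es h ∧ Es h ≤ ‖h‖ ^ 2 / 2 + η * (‖h‖ + 1))

/-- **A3** abstract saddle point theorem (V4, V6, V7, V8). -/
def ST_A3 : Prop := ∀ c C Hn : ℝ, 0 < c → 0 < C → 0 < Hn → ∃ mlo mhi η δ : ℝ,
  0 < mlo ∧ mlo < mhi ∧ 0 < η ∧ 0 < δ ∧
  ∀ (H : Type) [NormedAddCommGroup H] [InnerProductSpace ℝ H] (K1 K2 : Set H) (V : H → H)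
    (Es : H → ℝ) (h1 h2 : H) (s : ℝ), 1 < s → s < 1 + δ →
    Convex ℝ K1 → Convex ℝ K2 → IsCompact K1 → IsCompact K2 → K1.Nonempty → K2.Nonempty →
    (∀ k ∈ K1, ‖k‖ ≤ 2 * C) → (∀ k ∈ K2, ‖k‖ ≤ 2 * C) →
    (∀ k1 ∈ K1, ∀ k2 ∈ K2, 0 ≤ ⟪k1, k2⟫_ℝ) → ‖h1‖ ≤ Hn → ‖h2‖ ≤ Hn →
    (∀ k ∈ K1, ‖k‖ ≤ C * ⟪k, h1⟫_ℝ ∧ ⟪k, h2⟫_ℝ = 0) →
    (∀ k ∈ K2, ‖k‖ ≤ C * ⟪k, h2⟫_ℝ ∧ ⟪k, h1⟫_ℝ = 0) →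
    Continuous V → (∀ h, ‖V h - h‖ ≤ η) → (∀ h h', ‖h - h'‖ ^ 2 / 4 ≤ ⟪V h - V h', h - h'⟫_ℝ) →
    (∀ h h', Es h + ⟪V h, h' - h⟫_ℝ ≤ Es h') →
    (∀ h, ‖h‖ ^ 2 / 2 ≤ Es h ∧ Es h ≤ ‖h‖ ^ 2 / 2 + η * (‖h‖ + 1)) →
    (∃ k1 ∈ K1, ∃ k2 ∈ K2, ∀ m1 ∈ Icc mlo mhi, ∀ m2 ∈ Icc mlo mhi,
      (m1 ^ s + m2 ^ s) / s - ‖m1 • k1 - m2 • k2‖ ^ 2 / 2 ≤ c) →
    ∃ k1 ∈ K1, ∃ k2 ∈ K2, ∃ m1 ∈ Ioo mlo mhi, ∃ m2 ∈ Ioo mlo mhi,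
      (∀ k ∈ K1, ⟪V (m1 • k1 - m2 • k2), k⟫_ℝ ≤ ⟪V (m1 • k1 - m2 • k2), k1⟫_ℝ) ∧
      (∀ k ∈ K2, ⟪V (m1 • k1 - m2 • k2), k2⟫_ℝ ≤ ⟪V (m1 • k1 - m2 • k2), k⟫_ℝ) ∧
      ⟪V (m1 • k1 - m2 • k2), k1⟫_ℝ = m1 ^ (s - 1) ∧
      -⟪V (m1 • k1 - m2 • k2), k2⟫_ℝ = m2 ^ (s - 1) ∧
      ∀ c' : ℝ, (∃ k1' ∈ K1, ∃ k2' ∈ K2, ∀ m1' ∈ Icc mlo mhi, ∀ m2' ∈ Icc mlo mhi,
        (m1' ^ s + m2' ^ s) / s - ‖m1' • k1' - m2' • k2'‖ ^ 2 / 2 ≤ c') →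
        (m1 ^ s + m2 ^ s) / s - Es (m1 • k1 - m2 • k2) ≤ c'

/-- **A4** test functions (V5): averages of `κ` over small relative neighbourhoods of an optimal
pair. -/
def ST_A4 : Prop := ∀ (H : Type) [NormedAddCommGroup H] [InnerProductSpace ℝ H] [CompleteSpace H]
  (X : Type) [TopologicalSpace X] [MeasurableSpace X] [BorelSpace X] (lam : Measure X) (κ : X → H)
  (W1 W2 : Set X) (τ : X → ℝ), AbsData lam κ W1 W2 τ → ∀ v0 ∈ MM κ W1 W2,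
  ∀ M η : ℝ, 0 < M → 0 < η → ∀ᶠ p : ℕ in atTop,
  ∃ k1 ∈ Kf lam κ W1 p, ∃ k2 ∈ Kf lam κ W2 p, ∀ m1 ∈ Icc 0 M, ∀ m2 ∈ Icc 0 M,
    (m1 ^ (1 + 1 / (p : ℝ)) + m2 ^ (1 + 1 / (p : ℝ))) / (1 + 1 / (p : ℝ)) -
      ‖m1 • k1 - m2 • k2‖ ^ 2 / 2 ≤ ‖v0‖ ^ 2 / 2 + η

/-- **A5** compactness lemma (V10): existence of minimisers; almost feasible and almost minimal
implies close to `MM`. -/
def ST_A5 : Prop := ∀ (H : Type) [NormedAddCommGroup H] [InnerProductSpace ℝ H] [CompleteSpace H]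
  (X : Type) [TopologicalSpace X] [MeasurableSpace X] (κ : X → H) (W1 W2 : Set X),
  IsCompact W1 → IsCompact W2 → ContinuousOn κ W1 → ContinuousOn κ W2 →
  (feas κ W1 W2).Nonempty → (MM κ W1 W2).Nonempty ∧
  ∀ v0 ∈ MM κ W1 W2, ∀ ε : ℝ, 0 < ε → ∃ δ : ℝ, 0 < δ ∧ ∀ v : H,
    (∃ x ∈ W1, 1 - δ ≤ ⟪κ x, v⟫_ℝ) → (∃ x ∈ W2, ⟪κ x, v⟫_ℝ ≤ -1 + δ) →
    ‖v‖ ^ 2 / 2 ≤ ‖v0‖ ^ 2 / 2 + δ → ∃ m ∈ MM κ W1 W2, ‖v - m‖ < ε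

/-- **A6** identification (V9): a maximiser `k` of `⟪v,·⟫` over `K_W`. -/
def ST_A6 : Prop := ∀ (H : Type) [NormedAddCommGroup H] [InnerProductSpace ℝ H] [CompleteSpace H]
  (X : Type) [TopologicalSpace X] [MeasurableSpace X] [BorelSpace X] (lam : Measure X) (κ : X → H)
  (W : Set X) (p : ℕ) (v k : H) (m : ℝ), MeasurableSet W → IsCompact W → ContinuousOn κ W →
  lam W < ⊤ → 1 ≤ p → k ∈ Kf lam κ W p → (∀ k' ∈ Kf lam κ W p, ⟪v, k'⟫_ℝ ≤ ⟪v, k⟫_ℝ) →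
  0 < m → ⟪v, k⟫_ℝ = m ^ ((1 : ℝ) / p) →
  IntegrableOn (fun y => (max ⟪κ y, v⟫_ℝ 0) ^ p • κ y) W lam ∧
  m • k = ∫ y in W, (max ⟪κ y, v⟫_ℝ 0) ^ p • κ y ∂lam ∧
  (∃ x ∈ W, m ^ ((1 : ℝ) / p) ≤ (lam.real W) ^ ((1 : ℝ) / (p + 1)) * ⟪κ x, v⟫_ℝ) ∧
  IntegrableOn (fun y => (max ⟪κ y, v⟫_ℝ 0) ^ p) W lam ∧
  ∫ y in W, (max ⟪κ y, v⟫_ℝ 0) ^ p ∂lam ≤ (lam.real W) ^ ((1 : ℝ) / (p + 1)) * m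

/-- **ABS** abstract existence theorem (assembly of A1-A6). -/
def ST_ABS : Prop := ∀ (H : Type) [NormedAddCommGroup H] [InnerProductSpace ℝ H] [CompleteSpace H]
  (X : Type) [TopologicalSpace X] [MeasurableSpace X] [BorelSpace X] (lam : Measure X) (κ : X → H)
  (W1 W2 : Set X) (τ : X → ℝ), AbsData lam κ W1 W2 τ →
  ∃ C : ℝ, ∀ ε : ℝ, 0 < ε → ∀ᶠ p : ℕ in atTop, Odd p → ∃ v : H,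
    Integrable (fun y => gp W1 W2 τ p y ⟪κ y, v⟫_ℝ • κ y) lam ∧
    v = ∫ y, gp W1 W2 τ p y ⟪κ y, v⟫_ℝ • κ y ∂lam ∧
    (∃ m ∈ MM κ W1 W2, ‖v - m‖ < ε) ∧
    Integrable (fun y => gp W1 W2 τ p y ⟪κ y, v⟫_ℝ) lam ∧
    ∫ y, |gp W1 W2 τ p y ⟪κ y, v⟫_ℝ| ∂lam ≤ C

/-- **TWO** the two point minimiser. -/
def ST_TWO : Prop := ∀ (H : Type) [NormedAddCommGroup H] [InnerProductSpace ℝ H] (k1 k2 : H),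
  0 ≤ ⟪k1, k2⟫_ℝ → ⟪k1, k2⟫_ℝ ^ 2 < ⟪k1, k1⟫_ℝ * ⟪k2, k2⟫_ℝ →
  ∃ v0 : H, v0 = (⟪k1, k1⟫_ℝ * ⟪k2, k2⟫_ℝ - ⟪k1, k2⟫_ℝ ^ 2)⁻¹ •
      ((⟪k2, k2⟫_ℝ + ⟪k1, k2⟫_ℝ) • k1 - (⟪k1, k1⟫_ℝ + ⟪k1, k2⟫_ℝ) • k2) ∧
    ⟪k1, v0⟫_ℝ = 1 ∧ ⟪k2, v0⟫_ℝ = -1 ∧
    ‖v0‖ ^ 2 / 2 = cE ⟪k1, k1⟫_ℝ ⟪k2, k2⟫_ℝ ⟪k1, k2⟫_ℝ ∧
    ∀ v : H, 1 ≤ ⟪k1, v⟫_ℝ → ⟪k2, v⟫_ℝ ≤ -1 →
      cE ⟪k1, k1⟫_ℝ ⟪k2, k2⟫_ℝ ⟪k1, k2⟫_ℝ ≤ ‖v‖ ^ 2 / 2 ∧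
      (‖v‖ ^ 2 / 2 ≤ cE ⟪k1, k1⟫_ℝ ⟪k2, k2⟫_ℝ ⟪k1, k2⟫_ℝ → v = v0)

/-! ## Part 8: application -/

open Classical in
/-- The kernel `κ_x = g(x,·)/ψ(x) ∈ L²(D)`. -/
def kap (D : Set ℂ) (x : ℂ) : Lp ℝ 2 (volume.restrict D) :=
  if h : x ∈ D ∧ MemLp (gD D x) 2 (volume.restrict D) then (psi x)⁻¹ • h.2.toLp else 0

/-- The measure `r⁻⁴ψ² dA`. -/
def lamD (D : Set ℂ) : Measure ℂ :=
  (volume.restrict D).withDensity (fun y => ENNReal.ofReal (psi y ^ 2 / ‖y‖ ^ 4))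

/-- The truncation level. -/
def tau (y : ℂ) : ℝ := min (19 / 20) (‖y‖ ^ ((1 : ℝ) / 4))

/-- **KAP** properties of `kap`. -/
def ST_KAP : Prop := ∀ R, Prof R →
  (∀ x ∈ Ddom R, MemLp (gD (Ddom R) x) 2 (volume.restrict (Ddom R))) ∧
  (∀ x ∈ Ddom R, ∀ y ∈ Ddom R, ⟪kap (Ddom R) x, kap (Ddom R) y⟫_ℝ = Gt (Ddom R) x y) ∧
  (∀ x ∈ Ddom R, ∀ v : Lp ℝ 2 (volume.restrict (Ddom R)),
    ⟪kap (Ddom R) x, v⟫_ℝ = TD (Ddom R) v x / psi x) ∧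
  ContinuousOn (kap (Ddom R)) (Ddom R) ∧ StronglyMeasurable (kap (Ddom R)) ∧
  Integrable (fun y => tau y ^ 20 * (1 + ‖kap (Ddom R) y‖ + ‖kap (Ddom R) y‖ ^ 2)) (lamD (Ddom R))

/-- **ABSD** verification of the hypotheses of ABS. -/
def ST_ABSD : Prop := ∀ R, Prof R → ∀ a b : Fin 2 → ℝ, (∀ i, al i < a i) → (∀ i, a i < b i) →
  (∀ i, b i < be i) → ∀ L : ℝ, 1 < L → (∀ i, Wo a b L i ⊆ Ddom R) →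
  AbsData (lamD (Ddom R)) (kap (Ddom R)) (Wo a b L 0) (Wo a b L 1) tau

/-- The minimisers of the limit problem are uniformly good. -/
def Good (D W1 W2 : Set ℂ) : Prop := ∃ B : ℝ, ∀ v ∈ MM (kap D) W1 W2,
  (∀ y ∈ D, 4 ≤ ‖y‖ → y ∉ W1 → y ∉ W2 → |⟪kap D y, v⟫_ℝ| ≤ 9 / 10) ∧
  (∀ y ∈ D, ‖y‖ ≤ 4 → |⟪kap D y, v⟫_ℝ| ≤ ‖y‖ ^ ((1 : ℝ) / 2) / 4) ∧
  (∀ y ∈ W1, -(1 / 2) ≤ ⟪kap D y, v⟫_ℝ) ∧ (∀ y ∈ W2, ⟪kap D y, v⟫_ℝ ≤ 1 / 2) ∧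
  IntegrableOn (fun z => (v z) ^ 8) D ∧ ∫ z in D, (v z) ^ 8 ≤ B

/-- **MMI** there are `L`, `n` with good minimisers (W2, W3, TWO, KAP). -/
def ST_MMI : Prop := ∀ a b a' b', AngData a b a' b' → ∃ (L : ℝ) (n : ℕ), 16 ≤ L ∧
  (∀ i, Wo a b L i ⊆ Ddom (Rn (RL L) n)) ∧
  Good (Ddom (Rn (RL L) n)) (Wo a b L 0) (Wo a b L 1)

/-- A planar solution. -/
structure PlanarSol (R : ℝ → ℝ) (p : ℕ) (w z : ℂ → ℝ) : Prop where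
  odd : Odd p
  p20 : 20 ≤ p
  cw : ContinuousOn w (Ddom R)
  cz : ContinuousOn z (Ddom R)
  bw : ∃ C : ℝ, ∀ y ∈ Ddom R, |w y| ≤ C * (y ^ 2).im
  bz : ∃ C : ℝ, ∀ y ∈ Ddom R, |z y| ≤ C * (y ^ 2).im
  bmu : ∃ C : ℝ, ∀ y ∈ Ddom R, |psi y / ‖y‖ ^ 4 * (w y / psi y) ^ p| ≤ C * (y ^ 2).im
  ez : ∀ x ∈ Ddom R, z x = TD (Ddom R) (fun y => psi y / ‖y‖ ^ 4 * (w y / psi y) ^ p) x
  ew : ∀ x ∈ Ddom R, w x = TD (Ddom R) z x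
  nt : ∃ x ∈ Ddom R, w x ≠ 0

/-- **APP** a solution on a given domain with good windows (from ABS, KAP, ABSD, T1, T2, T3, T4). -/
def ST_APP : Prop := ∀ R, Prof R → ∀ a b : Fin 2 → ℝ, (∀ i, al i < a i) → (∀ i, a i < b i) →
  (∀ i, b i < be i) → ∀ L : ℝ, 1 < L → (∀ i, Wo a b L i ⊆ Ddom R) →
  Good (Ddom R) (Wo a b L 0) (Wo a b L 1) → ∃ p w z, PlanarSol R p w z

/-! ## Part 9: regularity -/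

/-- A fundamental solution `K` of `c⁻¹ Δ`, with smooth approximations `Kn`. -/
structure Fund {E : Type} [NormedAddCommGroup E] [InnerProductSpace ℝ E] [FiniteDimensional ℝ E]
    [MeasurableSpace E] [BorelSpace E] (K : E → ℝ) (Kn : ℕ → E → ℝ) (c : ℝ) : Prop where
  c0 : c ≠ 0
  even : ∀ x, K (-x) = K x
  evenn : ∀ n x, Kn n (-x) = Kn n x
  smooth : ∀ n, ContDiff ℝ (⊤ : ℕ∞) (Kn n)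
  smooth0 : ContDiffOn ℝ (⊤ : ℕ∞) K {0}ᶜ
  locK : LocallyIntegrable K volume
  locJ : LocallyIntegrable (fderiv ℝ K) volume
  lim : ∀ R : ℝ, Tendsto (fun n => ∫ x in Metric.ball (0 : E) R, |Kn n x - K x|) atTop (𝓝 0)
  limJ : ∀ R : ℝ, Tendsto (fun n => ∫ x in Metric.ball (0 : E) R, ‖fderiv ℝ (Kn n) x - fderiv ℝ K x‖)
    atTop (𝓝 0)
  delta : ∀ (f : E → ℝ) (M : ℝ), Measurable f → (∀ x, |f x| ≤ M) → HasCompactSupport f →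
    ContinuousAt f 0 → Tendsto (fun n => ∫ x, f x * (Δ (Kn n)) x) atTop (𝓝 (c * f 0))

/-- **FUND2** `K = log|x|` in the plane, `K_n = (1/2) log(|x|² + 1/(n+1)²)`, `c = 2π`. -/
def ST_FUND2 : Prop := Fund (E := ℂ) (fun x => Real.log ‖x‖)
  (fun n x => (1 / 2) * Real.log (‖x‖ ^ 2 + 1 / ((n : ℝ) + 1) ^ 2)) (2 * Real.pi)

/-- `ℝ⁶`. -/
abbrev E6 : Type := EuclideanSpace ℝ (Fin 6)

/-- **FUND6** `K = |x|⁻⁴` in `ℝ⁶`, `K_n = (|x|² + 1/(n+1)²)⁻²`, some `c ≠ 0`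
(`Δ K_n = -24 δ² (|x|²+δ²)⁻⁴`). -/
def ST_FUND6 : Prop := ∃ c : ℝ, Fund (E := E6) (fun x => (‖x‖ ^ 4)⁻¹)
  (fun n x => ((‖x‖ ^ 2 + 1 / ((n : ℝ) + 1) ^ 2) ^ 2)⁻¹) c

/-- **POT** potentials of bounded functions are `C¹`; of `C¹` functions, `C²`. -/
def ST_POT : Prop := ∀ (E : Type) [NormedAddCommGroup E] [InnerProductSpace ℝ E]
  [FiniteDimensional ℝ E] [MeasurableSpace E] [BorelSpace E] (K : E → ℝ) (Kn : ℕ → E → ℝ) (c : ℝ),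
  Fund K Kn c → ∀ (F : E → ℝ) (M : ℝ), Measurable F → (∀ x, |F x| ≤ M) → HasCompactSupport F →
  ContDiff ℝ 1 (fun x => ∫ y, K (x - y) * F y) ∧
  (ContDiff ℝ 1 F → ContDiff ℝ 2 (fun x => ∫ y, K (x - y) * F y))

/-- **WREG** interior regularity of bounded weak solutions of `-Δ u = f`. Proof: test with
`φ(y) Kn(x-y)`, `φ` a cutoff equal to `1` near `x`, and let `n → ∞`:
`c u(x) = -∫ K(x-y) φ f dy - ∫ u [2 ∇φ·∇_y K(x-y) + K(x-y) Δφ] dy` at continuity points; first term by POT,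
second smooth near the set `{φ = 1}`. -/
def ST_WREG : Prop := ∀ (E : Type) [NormedAddCommGroup E] [InnerProductSpace ℝ E]
  [FiniteDimensional ℝ E] [MeasurableSpace E] [BorelSpace E] (K : E → ℝ) (Kn : ℕ → E → ℝ) (c : ℝ),
  Fund K Kn c → ∀ (Ω : Set E) (u f : E → ℝ) (M : ℝ), IsOpen Ω → Measurable u → Measurable f →
  (∀ x, |u x| ≤ M) → (∀ x, |f x| ≤ M) → (∀ x ∈ Ω, x ∈ closure {y | y ∈ Ω ∧ ContinuousAt u y}) →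
  (∀ φ : E → ℝ, ContDiff ℝ (⊤ : ℕ∞) φ → HasCompactSupport φ → tsupport φ ⊆ Ω →
    ∫ x, u x * (Δ φ) x = - ∫ x, f x * φ x) →
  ∃ v : E → ℝ, ContDiffOn ℝ 1 v Ω ∧ (∀ x ∈ Ω, ContinuousAt u x → v x = u x) ∧
    (ContDiffOn ℝ 1 f Ω → ContDiffOn ℝ 2 v Ω)

/-- **WEAK2** weak equation of `T_D f` (Fubini and GREP). -/
def ST_WEAK2 : Prop := ∀ R, Prof R → ∀ (f : ℂ → ℝ) (M : ℝ), Measurable f → (∀ x, |f x| ≤ M) →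
  ∀ φ : ℂ → ℝ, ContDiff ℝ 2 φ → HasCompactSupport φ → tsupport φ ⊆ Ddom R →
  ∫ x in Ddom R, TD (Ddom R) f x * (Δ φ) x = - ∫ x in Ddom R, f x * φ x

/-- **REG2** planar interior regularity (from WEAK2, WREG, FUND2, T3). -/
def ST_REG2 : Prop := ∀ R, Prof R → ∀ (f : ℂ → ℝ) (M : ℝ), ContinuousOn f (Ddom R) →
  (∀ x ∈ Ddom R, |f x| ≤ M) → ContDiffOn ℝ 1 (TD (Ddom R) f) (Ddom R) ∧
  (ContDiffOn ℝ 1 f (Ddom R) → ContDiffOn ℝ 2 (TD (Ddom R) f) (Ddom R) ∧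
    ∀ x ∈ Ddom R, (Δ (TD (Ddom R) f)) x = - f x)

/-! ## Part 10: lifting to `ℝ⁶` -/

/-- `|x'|`. -/
def ra (x : E6) : ℝ := Real.sqrt (x 0 ^ 2 + x 1 ^ 2 + x 2 ^ 2)

/-- `|x''|`. -/
def rb (x : E6) : ℝ := Real.sqrt (x 3 ^ 2 + x 4 ^ 2 + x 5 ^ 2)

/-- `Z(x) = |x'| + i |x''|`. -/
def ZZ (x : E6) : ℂ := ⟨ra x, rb x⟩

/-- The domain in `ℝ⁶`. -/
def Om (R : ℝ → ℝ) : Set E6 := {x | ‖x‖ < R (Complex.arg (ZZ x))}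

/-- The gauge function of `Om (Rn Rv n)`. -/
def Fg (R : ℝ → ℝ) (x : E6) : ℝ := ‖x‖ / R (Complex.arg (ZZ x))

/-- Lift of a planar function (value `0` on the axes). -/
def lift (w : ℂ → ℝ) (x : E6) : ℝ := w (ZZ x) / (ra x * rb x)

/-- **LIFT** -/
def ST_LIFT : Prop := ∀ (w : ℂ → ℝ) (x : E6), 0 < ra x → 0 < rb x → ContDiffAt ℝ 2 w (ZZ x) →
  ContDiffAt ℝ 2 (lift w) x ∧ (Δ (lift w)) x = (Δ w) (ZZ x) / (ra x * rb x)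

/-- **CUT** bounded solutions off the axes are weak solutions. -/
def ST_CUT : Prop := ∀ (Ω : Set E6) (u f : E6 → ℝ) (M : ℝ), IsOpen Ω → (∀ x ∈ Ω, |u x| ≤ M) →
  (∀ x ∈ Ω, |f x| ≤ M) → (∀ x ∈ Ω, 0 < ra x → 0 < rb x → ContDiffAt ℝ 2 u x ∧ ContinuousAt f x ∧
    (Δ u) x = - f x) →
  ∀ φ : E6 → ℝ, ContDiff ℝ (⊤ : ℕ∞) φ → HasCompactSupport φ → tsupport φ ⊆ Ω →
    ∫ x, u x * (Δ φ) x = - ∫ x, f x * φ x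

/-- **REG6** removal of the axes (from CUT, WREG, FUND6). -/
def ST_REG6 : Prop := ∀ (Ω : Set E6) (u f : E6 → ℝ) (M : ℝ), IsOpen Ω → (∀ x ∈ Ω, |u x| ≤ M) →
  (∀ x ∈ Ω, |f x| ≤ M) → (∀ x ∈ Ω, 0 < ra x → 0 < rb x → ContDiffAt ℝ 2 u x ∧ ContinuousAt f x ∧
    (Δ u) x = - f x) →
  ∃ v : E6 → ℝ, ContDiffOn ℝ 1 v Ω ∧ (∀ x ∈ Ω, 0 < ra x → 0 < rb x → v x = u x) ∧
    ((∃ f' : E6 → ℝ, ContDiffOn ℝ 1 f' Ω ∧ ∀ x ∈ Ω, 0 < ra x → 0 < rb x → f' x = f x) →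
      ContDiffOn ℝ 2 v Ω)

/-- **DOM** the domain in `ℝ⁶`. -/
def ST_DOM : Prop :=
  (∀ x : E6, ‖ZZ x‖ = ‖x‖ ∧ 0 ≤ (ZZ x).re ∧ 0 ≤ (ZZ x).im ∧ fold (ZZ x) = ZZ x) ∧
  Continuous ZZ ∧ (∀ t : ℝ, 0 ≤ t → ∀ x : E6, ZZ (t • x) = (t : ℂ) * ZZ x) ∧
  (∀ R, Prof R → (∀ x, 0 < ra x → 0 < rb x → (x ∈ Om R ↔ ZZ x ∈ Ddom R)) ∧ IsOpen (Om R) ∧
    Bornology.IsBounded (Om R) ∧ (0 : E6) ∈ Om R) ∧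
  (∀ Rv : Fin 2 → ℝ, (∀ i, 1 ≤ Rv i) → ∀ n : ℕ,
    (∀ x, x ≠ 0 → ContDiffAt ℝ (⊤ : ℕ∞) (Fg (Rn Rv n)) x) ∧ Continuous (Fg (Rn Rv n)) ∧
    (∀ t : ℝ, 0 ≤ t → ∀ x, Fg (Rn Rv n) (t • x) = t * Fg (Rn Rv n) x) ∧
    (∀ x, x ≠ 0 → 0 < Fg (Rn Rv n) x) ∧
    Om (Rn Rv n) = {x | Fg (Rn Rv n) x < 1} ∧
    frontier (Om (Rn Rv n)) = {x | Fg (Rn Rv n) x = 1} ∧
    closure (Om (Rn Rv n)) = {x | Fg (Rn Rv n) x ≤ 1})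

/-- **BDY** boundary values in `ℝ⁶` (from T3, T4, T5, DOM). -/
def ST_BDY : Prop := ∀ Rv : Fin 2 → ℝ, (∀ i, 1 ≤ Rv i) → ∀ n : ℕ, ∀ f : ℂ → ℝ,
  ContinuousOn f (Ddom (Rn Rv n)) → (∃ C : ℝ, ∀ y ∈ Ddom (Rn Rv n), |f y| ≤ C * (y ^ 2).im) →
  ∀ ξ ∈ frontier (Om (Rn Rv n)),
  Tendsto (lift (TD (Ddom (Rn Rv n)) f)) (𝓝[{x | x ∈ Om (Rn Rv n) ∧ 0 < ra x ∧ 0 < rb x}] ξ) (𝓝 0)

/-- Solutions of the weighted Lane-Emden system. -/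
structure LESol (N : ℕ) (α β p q : ℝ) (Ω : Set (EuclideanSpace ℝ (Fin N)))
    (u v : EuclideanSpace ℝ (Fin N) → ℝ) : Prop where
  cu : ContDiffOn ℝ 2 u Ω
  cv : ContDiffOn ℝ 2 v Ω
  bu : ContinuousOn u (closure Ω)
  bv : ContinuousOn v (closure Ω)
  zu : ∀ x ∈ frontier Ω, u x = 0
  zv : ∀ x ∈ frontier Ω, v x = 0
  eu : ∀ x ∈ Ω, -(Δ u) x = ‖x‖ ^ β * |v x| ^ (q - 1) * v x
  ev : ∀ x ∈ Ω, -(Δ v) x = ‖x‖ ^ α * |u x| ^ (p - 1) * u x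

/-- `Ω` is a bounded smooth strictly star-shaped domain: `Ω = {F < 1}` with `F` positively
homogeneous of degree one, positive and smooth off `0`. -/
structure StarDom (N : ℕ) (Ω : Set (EuclideanSpace ℝ (Fin N)))
    (F : EuclideanSpace ℝ (Fin N) → ℝ) : Prop where
  eq : Ω = {x | F x < 1}
  cont : Continuous F
  smooth : ∀ x, x ≠ 0 → ContDiffAt ℝ (⊤ : ℕ∞) F x
  pos : ∀ x, x ≠ 0 → 0 < F x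
  hom : ∀ t : ℝ, 0 ≤ t → ∀ x, F (t • x) = t * F x
  bdd : Bornology.IsBounded Ω
  strict : ∀ x ∈ frontier Ω, 0 < fderiv ℝ F x x

/-- **LIFTSOL** from a planar solution to a solution in `ℝ⁶`
(REG2, LIFT, REG6, DOM, BDY). -/
def ST_LIFTSOL : Prop := ∀ Rv : Fin 2 → ℝ, (∀ i, 1 ≤ Rv i) → ∀ (n p : ℕ) (w z : ℂ → ℝ),
  PlanarSol (Rn Rv n) p w z →
  ∃ u v : E6 → ℝ, LESol 6 ((p : ℝ) - 5) 0 p 1 (Om (Rn Rv n)) u v ∧ ∃ x ∈ Om (Rn Rv n), u x ≠ 0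

/-- **FINAL** -/
def ST_FINAL : Prop := ∃ (p : ℕ) (Ω : Set E6) (F u v : E6 → ℝ), Odd p ∧ 20 ≤ p ∧
  StarDom 6 Ω F ∧ LESol 6 ((p : ℝ) - 5) 0 p 1 Ω u v ∧ ∃ x ∈ Ω, u x ≠ 0

end LEP
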